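import Mathlib

set_option autoImplicit false

/-!
# Finite automata reading digits: words, a word of minimal rank, the permutations of its image
-/

namespace Pool.Agent.Run7.h560.AUT

open Finset

variable {Q : Type}

/-- the state after reading the `k` digits of `n` in base `b`, the most significant first -/
def st (b : ℕ) (δ : Q → ℕ → Q) : ℕ → ℕ → Q → Q
  | 0, _, c => c
  | k + 1, n, c => δ (st b δ k (n / b) c) (n % b)

lemma st_zero (b : ℕ) (δ : Q → ℕ → Q) (n : ℕ) (c : Q) : st b δ 0 n c = c := rfl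

lemma st_succ (b : ℕ) (δ : Q → ℕ → Q) (k n : ℕ) (c : Q) :
    st b δ (k + 1) n c = δ (st b δ k (n / b) c) (n % b) := rfl

lemma st_add (b : ℕ) (hb : 1 ≤ b) (δ : Q → ℕ → Q) (j k n m : ℕ) (c : Q) (hm : m < b ^ k) :
    st b δ (j + k) (n * b ^ k + m) c = st b δ k m (st b δ j n c) := by
  induction k generalizing m with
  | zero =>
    have : m = 0 := by simpa using hm
    subst this
    simp [st_zero]
  | succ k ih =>
    have hb0 : 0 < b := hb
    have e1 : n * b ^ (k + 1) + m = b * (n * b ^ k) + m := by rw [pow_succ]; ring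
    have e2 : (n * b ^ (k + 1) + m) / b = n * b ^ k + m / b := by
      rw [e1, Nat.mul_add_div hb0]
    have e3 : (n * b ^ (k + 1) + m) % b = m % b := by
      rw [e1, Nat.mul_add_mod]
    have hm' : m / b < b ^ k := by
      rw [Nat.div_lt_iff_lt_mul hb0, ← pow_succ]
      exact hm
    rw [← add_assoc, st_succ, st_succ, e2, e3, ih _ hm']

/-- a word of minimal rank -/
lemma exists_min (b : ℕ) (δ : Q → ℕ → Q) : ∃ K u : ℕ, u < b ^ K ∧
    ∀ k n : ℕ, n < b ^ k → (Set.range (st b δ K u)).ncard ≤ (Set.range (st b δ k n)).ncard := by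
  classical
  let T := {p : ℕ × ℕ // p.2 < b ^ p.1}
  have hT : Nonempty T := ⟨⟨(0, 0), by simp⟩⟩
  let f : T → ℕ := fun p => (Set.range (st b δ p.1.1 p.1.2)).ncard
  let p0 := Function.argmin f
  refine ⟨p0.1.1, p0.1.2, p0.2, ?_⟩
  intro k n hn
  exact Function.argmin_le f ⟨(k, n), hn⟩

/-- The data of an automaton with a word `u` of length `K` and of minimal rank. -/
structure Dat (Q : Type) where
  b : ℕ
  δ : Q → ℕ → Q
  K : ℕ
  u : ℕ
  hb : 2 ≤ b
  hu : u < b ^ K
  hmin : ∀ k n : ℕ, n < b ^ k →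
    (Set.range (st b δ K u)).ncard ≤ (Set.range (st b δ k n)).ncard

namespace Dat

variable (A : Dat Q)

/-- the map of the word `u` -/
def U : Q → Q := st A.b A.δ A.K A.u

/-- the map of a word -/
def s (k n : ℕ) : Q → Q := st A.b A.δ k n

/-- the image of `U` -/
def I : Type := {c : Q // c ∈ Set.range A.U}

instance [Finite Q] : Finite A.I := by unfold I; infer_instance

noncomputable instance [Finite Q] : Fintype A.I := Fintype.ofFinite _

instance [Nonempty Q] : Nonempty A.I := ⟨⟨A.U (Classical.arbitrary Q), ⟨_, rfl⟩⟩⟩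

lemma hb1 : 1 ≤ A.b := by have := A.hb; omega

lemma s_add (j k n m : ℕ) (c : Q) (hm : m < A.b ^ k) :
    A.s (j + k) (n * A.b ^ k + m) c = A.s k m (A.s j n c) :=
  st_add A.b A.hb1 A.δ j k n m c hm

lemma s_zero (n : ℕ) (c : Q) : A.s 0 n c = c := rfl

/-- `w` followed by `u` followed by `v` -/
def cat (n j m : ℕ) : ℕ := (n * A.b ^ A.K + A.u) * A.b ^ j + m

lemma cat_lt (k n j m : ℕ) (hn : n < A.b ^ k) (hm : m < A.b ^ j) :
    A.cat n j m < A.b ^ (k + A.K + j) := by
  unfold cat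
  have h1 : n * A.b ^ A.K + A.u < A.b ^ (k + A.K) := by
    have : (n + 1) * A.b ^ A.K ≤ A.b ^ k * A.b ^ A.K := Nat.mul_le_mul_right _ hn
    have h2 := A.hu
    rw [pow_add]
    nlinarith
  have h3 : (n * A.b ^ A.K + A.u + 1) * A.b ^ j ≤ A.b ^ (k + A.K) * A.b ^ j :=
    Nat.mul_le_mul_right _ h1
  rw [pow_add]
  nlinarith

lemma s_cat (k n j m : ℕ) (c : Q) (hm : m < A.b ^ j) :
    A.s (k + A.K + j) (A.cat n j m) c = A.s j m (A.U (A.s k n c)) := by
  unfold cat
  rw [A.s_add _ _ _ _ _ hm, A.s_add _ _ _ _ _ A.hu]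
  rfl

/-- the permutation of the image of `U` -/
def π (k n : ℕ) (i : A.I) : A.I := ⟨A.U (A.s k n i.1), ⟨_, rfl⟩⟩

lemma π_val (k n : ℕ) (i : A.I) : (A.π k n i).1 = A.U (A.s k n i.1) := rfl

lemma π_cat (k n j m : ℕ) (hm : m < A.b ^ j) (i : A.I) :
    A.π (k + A.K + j) (A.cat n j m) i = A.π j m (A.π k n i) := by
  apply Subtype.ext
  rw [π_val, π_val, π_val, A.s_cat _ _ _ _ _ hm]

variable [Finite Q]

lemma π_surj (k n : ℕ) (hn : n < A.b ^ k) : Function.Surjective (A.π k n) := by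
  classical
  have h1 : Set.range (fun c => A.U (A.s k n (A.U c))) ⊆ Set.range A.U := by
    rintro _ ⟨c, rfl⟩
    exact ⟨_, rfl⟩
  have h2 : ∀ c, A.s (0 + A.K + (k + A.K)) (A.cat 0 (k + A.K) (n * A.b ^ A.K + A.u)) c =
      A.U (A.s k n (A.U c)) := by
    intro c
    rw [A.s_cat, A.s_add _ _ _ _ _ A.hu, A.s_zero]
    · rfl
    · have : (n + 1) * A.b ^ A.K ≤ A.b ^ k * A.b ^ A.K := Nat.mul_le_mul_right _ hn
      have h2 := A.hu
      rw [pow_add]
      nlinarith
  have h3 : (Set.range A.U).ncard ≤ (Set.range (fun c => A.U (A.s k n (A.U c)))).ncard := by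
    have h4 := A.hmin (0 + A.K + (k + A.K)) (A.cat 0 (k + A.K) (n * A.b ^ A.K + A.u)) (by
      apply A.cat_lt 0 0 _ _ (by simp)
      have : (n + 1) * A.b ^ A.K ≤ A.b ^ k * A.b ^ A.K := Nat.mul_le_mul_right _ hn
      have h2 := A.hu
      rw [pow_add]
      nlinarith)
    have h5 : st A.b A.δ (0 + A.K + (k + A.K)) (A.cat 0 (k + A.K) (n * A.b ^ A.K + A.u)) =
        fun c => A.U (A.s k n (A.U c)) := funext h2
    rw [h5] at h4
    exact h4
  have h4 := Set.eq_of_subset_of_ncard_le h1 h3 (Set.toFinite _)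
  intro i
  obtain ⟨c, hc⟩ := h4.symm.subset i.2
  exact ⟨⟨A.U c, ⟨_, rfl⟩⟩, Subtype.ext hc⟩

lemma π_bij (k n : ℕ) (hn : n < A.b ^ k) : Function.Bijective (A.π k n) :=
  (Finite.injective_iff_bijective.1 (Finite.injective_iff_surjective.2 (A.π_surj k n hn)))

end Dat

end Pool.Agent.Run7.h560.AUT
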