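import Pool.Agent.TH915.PW.IntCrit

set_option autoImplicit false

/-!
# The covering criterion without the frequencies in `(1 / D) ℤ`
-/

namespace Pool.Agent.Run7.h560.AUT

open Finset Filter
open Pool.Agent.H469R2.NK (e norm_e e_add e_zero)
open Pool.Agent.W147.PS (ff ff_compare ev_pow)
open Pool.Agent.TH915.PW (e_int crit class_le)

/-- the sum of all the translates kills the frequencies with denominator dividing `D` -/
lemma geom_zero (D q h : ℕ) (h1 : 1 ≤ h) (h2 : h < q) (hdvd : q ∣ D * h) :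
    ∑ t ∈ range D, e ((h : ℝ) / q * t) = 0 := by
  have hq : 0 < q := by omega
  have hq' : (0 : ℝ) < q := by exact_mod_cast hq
  set z : ℂ := e ((h : ℝ) / q) with hz
  have hpow : ∀ t : ℕ, e ((h : ℝ) / q * t) = z ^ t := by
    intro t
    induction t with
    | zero => simp [e_zero]
    | succ t ih =>
      rw [pow_succ, ← ih, hz, ← e_add]
      congr 1
      push_cast
      ring
  rw [sum_congr rfl fun t _ => hpow t]
  have hz1 : z ≠ 1 := by
    intro h3
    rw [hz] at h3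
    have h4 : Complex.exp (((2 * Real.pi * ((h : ℝ) / q) : ℝ) : ℂ) * Complex.I) = 1 := h3
    rw [Complex.exp_eq_one_iff] at h4
    obtain ⟨m, hm⟩ := h4
    have h5 : ((2 * Real.pi * ((h : ℝ) / q) : ℝ) : ℂ) = (m : ℂ) * (2 * Real.pi) := by
      apply mul_right_cancel₀ Complex.I_ne_zero
      rw [hm]; ring
    have h6 : (2 * Real.pi * ((h : ℝ) / q) : ℝ) = (m : ℝ) * (2 * Real.pi) := by exact_mod_cast h5
    have h7 : (h : ℝ) / q = m := by
      have h8 : (2 * Real.pi : ℝ) ≠ 0 := by positivity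
      apply mul_left_cancel₀ h8
      rw [h6]; ring
    have h9 : (0 : ℝ) < (h : ℝ) / q := by
      have : (0 : ℝ) < h := by exact_mod_cast (by omega : 0 < h)
      positivity
    have h10 : (h : ℝ) / q < 1 := by
      rw [div_lt_one hq']
      exact_mod_cast h2
    rw [h7] at h9 h10
    have h11 : (0 : ℤ) < m := by exact_mod_cast h9
    have h12 : m < (1 : ℤ) := by exact_mod_cast h10
    omega
  have hzD : z ^ D = 1 := by
    rw [← hpow]
    obtain ⟨r, hr⟩ := hdvd
    have h3 : (h : ℝ) / q * D = ((r : ℤ) : ℝ) := by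
      rw [div_mul_eq_mul_div, div_eq_iff hq'.ne']
      have : ((D * h : ℕ) : ℝ) = ((q * r : ℕ) : ℝ) := by rw [hr]
      push_cast at this ⊢
      linarith
    rw [h3]
    exact e_int _
  have h3 := mul_geom_sum z D
  rw [hzD, sub_self] at h3
  rcases mul_eq_zero.1 h3 with h4 | h4
  · exact absurd (sub_eq_zero.1 h4) hz1
  · exact h4

/-- **The criterion.** -/
theorem crit_mod (η : ℝ) (h0 : 0 < η) (h1 : η ≤ 1) (D : ℕ) (hD : 1 ≤ D) :
    ∃ κ : ℝ, 0 < κ ∧ ∀ᶠ M : ℝ in atTop,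
    ∀ (ι : Type) (s : Finset ι) (v : ι → ℤ), s.Nonempty → (∀ i ∈ s, M ≤ v i) →
    (∀ q h : ℕ, (q : ℝ) ≤ M ^ η → 1 ≤ h → h < q → ¬ (q ∣ D * h) →
      ‖∑ i ∈ s, e ((h : ℝ) / q * v i)‖ ≤ s.card * M ^ (-η)) →
    ∃ i ∈ s, ∀ m : ℤ, |(m : ℝ) - v i| ≤ κ * ff M →
      ∃ p : ℕ, p.Prime ∧ (p : ℝ) ≤ M ^ η ∧ (p : ℤ) ∣ m ∧ (p : ℤ) < m := by
  obtain ⟨κ, hκ, X₀, hc⟩ := crit
  refine ⟨κ * (η / 64), by positivity, ?_⟩
  filter_upwards [ff_compare η h0 h1, (tendsto_rpow_atTop h0).eventually_ge_atTop (max X₀ 1),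
    eventually_ge_atTop (1 : ℝ), Pool.Agent.H256R2.SC.ev_log_sq, ev_pow (1 / 10) 1 4 (by norm_num),
    Real.tendsto_log_atTop.eventually_ge_atTop ((D : ℝ) / (κ * (η / 64)))]
    with M hM hMX hM1 hlog hM10 hMD
  intro ι s v hs hv hE
  have hM0 : 0 < M := by linarith
  obtain ⟨hfl, hcr⟩ := hc (M ^ η) ((le_max_left _ _).trans hMX)
  have hX1 : 1 ≤ M ^ η := (le_max_right _ _).trans hMX
  have hXM : M ^ η ≤ M := by
    calc M ^ η ≤ M ^ (1 : ℝ) := Real.rpow_le_rpow_of_exponent_le hM1 h1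
      _ = M := Real.rpow_one M
  have hpX : (M ^ η) ^ (1 / 10 : ℝ) ≤ M / 4 := by
    rw [Real.rpow_one] at hM10
    have : (M ^ η) ^ (1 / 10 : ℝ) ≤ M ^ (1 / 10 : ℝ) :=
      Real.rpow_le_rpow (by positivity) hXM (by norm_num)
    linarith
  have hN : (0 : ℝ) < s.card := by exact_mod_cast hs.card_pos
  have hD0 : (0 : ℝ) < D := by exact_mod_cast hD
  have hcardp : ((s ×ˢ range D).card : ℝ) = s.card * D := by
    rw [card_product, card_range]
    push_cast
    rfl
  obtain ⟨⟨i, t⟩, hi, hi2⟩ := hcr (ι × ℕ) (s ×ˢ range D) (fun p => v p.1 + p.2)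
    (hs.product ⟨0, mem_range.2 hD⟩) (by
    intro q hq hqX r
    refine (class_le (s ×ˢ range D) (fun p => v p.1 + (p.2 : ℤ)) q hq
      (s.card * D * M ^ (-η)) (by positivity) ?_ r).trans ?_
    · intro h hh1 hh2
      have e1 : ∑ p ∈ s ×ˢ range D, e ((h : ℝ) / q * ((v p.1 + (p.2 : ℤ) : ℤ) : ℝ)) =
          (∑ i ∈ s, e ((h : ℝ) / q * v i)) * ∑ t ∈ range D, e ((h : ℝ) / q * t) := by
        rw [sum_product, sum_mul_sum]
        refine sum_congr rfl fun i _ => sum_congr rfl fun t _ => ?_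
        rw [← e_add]
        congr 1
        push_cast
        ring
      rw [e1, norm_mul]
      by_cases hdv : q ∣ D * h
      · rw [geom_zero D q h hh1 hh2 hdv, norm_zero, mul_zero]
        positivity
      · have e2 : ‖∑ t ∈ range D, e ((h : ℝ) / q * t)‖ ≤ D := by
          refine (norm_sum_le _ _).trans ?_
          simp [norm_e]
        have e3 := hE q h (by
          refine hqX.trans ?_
          calc (M ^ η) ^ (2 / 5 : ℝ) ≤ (M ^ η) ^ (1 : ℝ) :=
                Real.rpow_le_rpow_of_exponent_le hX1 (by norm_num)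
            _ = _ := Real.rpow_one _) hh1 hh2 hdv
        calc _ ≤ (s.card * M ^ (-η)) * D := mul_le_mul e3 e2 (norm_nonneg _) (by positivity)
          _ = _ := by ring
    · rw [hcardp]
      apply mul_le_mul_of_nonneg_left _ (by positivity)
      rw [← Real.rpow_mul hM0.le]
      apply Real.rpow_le_rpow_of_exponent_le hM1
      linarith)
  rw [mem_product, mem_range] at hi
  have h5 := (hM.2 (M ^ η) le_rfl (by
    calc M ^ η ≤ M ^ (2 : ℝ) := Real.rpow_le_rpow_of_exponent_le hM1 (by linarith)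
      _ = M ^ 2 := by norm_num)).1
  have h6 : κ * (η / 32) * ff M ≤ κ * Pool.Agent.H256R2.SC.ff (M ^ η) := by
    calc κ * (η / 32) * ff M = κ * (η / 32 * ff M) := by ring
      _ ≤ _ := mul_le_mul_of_nonneg_left h5 hκ.le
  have h6b : (D : ℝ) ≤ κ * (η / 64) * ff M := by
    have h7 : (D : ℝ) ≤ Real.log M * (κ * (η / 64)) := by
      rwa [div_le_iff₀ (by positivity)] at hMD
    have h8 : Real.log M * (κ * (η / 64)) ≤ ff M * (κ * (η / 64)) :=
      mul_le_mul_of_nonneg_right hM.1 (by positivity)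
    linarith
  refine ⟨i, hi.1, fun m hm => ?_⟩
  have ht : (t : ℝ) ≤ D := by exact_mod_cast hi.2.le
  have ht0 : (0 : ℝ) ≤ t := Nat.cast_nonneg t
  have hm2 : |(m : ℝ) - ((v i + (t : ℤ) : ℤ) : ℝ)| ≤ κ * Pool.Agent.H256R2.SC.ff (M ^ η) + 1 := by
    have h9 := abs_le.1 hm
    rw [abs_le]
    push_cast
    constructor <;> nlinarith
  obtain ⟨p, hp, hpX', hpd⟩ := hi2 m hm2
  refine ⟨p, hp, ?_, hpd, ?_⟩
  · refine hpX'.trans ?_
    calc (M ^ η) ^ (1 / 10 : ℝ) ≤ (M ^ η) ^ (1 : ℝ) :=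
          Real.rpow_le_rpow_of_exponent_le hX1 (by norm_num)
      _ = _ := Real.rpow_one _
  · have h8 := hv i hi.1
    have h9 := (abs_le.mp hm).1
    have h10 : (Real.log (M ^ η)) ^ 2 ≤ (Real.log M) ^ 2 := by
      rw [Real.log_rpow hM0]
      have := Real.log_nonneg hM1
      apply pow_le_pow_left₀ (by positivity)
      nlinarith
    have h11 : (p : ℝ) < m := by
      have h12 : κ * (η / 64) * ff M ≤ κ * (η / 32) * ff M := by
        have : 0 ≤ κ * (η / 64) * ff M := by linarith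
        nlinarith
      linarith
    exact_mod_cast h11

end Pool.Agent.Run7.h560.AUT
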