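import Pool.Agent.Run7.h560.AUT.Exp
import Pool.Agent.Run7.h560.AUT.Crit

set_option autoImplicit false

/-!
# Prime-free neighbourhoods at the numbers which lead an automaton to a given state
-/

namespace Pool.Agent.Run7.h560.AUT

open Finset Filter
open Pool.Agent.H469R2.NK (e norm_e e_add e_zero)
open Pool.Agent.W147.PS (ff ff_compare ev_pow)

variable {Q : Type}

/-- `s` is computed by the automaton from the leading digits on -/
def Run (b : ℕ) (δ : Q → ℕ → Q) (s : ℕ → Q) : Prop :=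
  ∀ n d : ℕ, 1 ≤ n → d < b → s (b * n + d) = δ (s n) d

lemma run_st (b : ℕ) (hb : 2 ≤ b) (δ : Q → ℕ → Q) (s : ℕ → Q) (hs : Run b δ s) (k m v : ℕ)
    (hm : 1 ≤ m) (hv : v < b ^ k) : s (m * b ^ k + v) = st b δ k v (s m) := by
  induction k generalizing v with
  | zero =>
    have : v = 0 := by simpa using hv
    subst this
    simp [st_zero]
  | succ k ih =>
    have hb0 : 0 < b := by omega
    have hv' : v / b < b ^ k := by
      rw [Nat.div_lt_iff_lt_mul hb0, ← pow_succ]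
      exact hv
    have e1 : m * b ^ (k + 1) + v = b * (m * b ^ k + v / b) + v % b := by
      have h := Nat.div_add_mod v b
      calc m * b ^ (k + 1) + v = b * (m * b ^ k) + (b * (v / b) + v % b) := by
            rw [h, pow_succ]; ring
        _ = _ := by ring
    have h1 : 1 ≤ m * b ^ k + v / b := by
      have : 0 < m * b ^ k := Nat.mul_pos hm (pow_pos hb0 k)
      exact le_trans this (Nat.le_add_right _ _)
    rw [e1, hs _ _ h1 (Nat.mod_lt _ hb0), ih _ hv', st_succ]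

/-- the numerical facts -/
lemma exponents (b M : ℕ) (hb : 2 ≤ b) (hM : 1 ≤ M) (r : ℝ) (hr : r < (b : ℝ) ^ M) (ε : ℝ)
    (hε : 0 < ε) (hε1 : ε ≤ 1) (C : ℝ) : ∃ η : ℝ, 0 < η ∧ η ≤ ε ∧ ∀ᶠ X : ℝ in atTop, ∀ j : ℕ,
      X ^ ε ≤ (b : ℝ) ^ (M * j) → 0 ≤ r → C * (X ^ (2 * η) + r ^ j * X ^ η) ≤ (b : ℝ) ^ (M * j) := by
  set β : ℝ := (b : ℝ) ^ M with hβ
  have hbR : (2 : ℝ) ≤ b := by exact_mod_cast hb
  have hβ2 : 2 ≤ β := by
    rw [hβ]
    calc (2 : ℝ) ≤ b := hbR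
      _ = (b : ℝ) ^ 1 := (pow_one _).symm
      _ ≤ _ := pow_le_pow_right₀ (by linarith) hM
  have hlβ : 0 < Real.log β := Real.log_pos (by linarith)
  set ρ : ℝ := max r 1 with hρ
  have hρ1 : 1 ≤ ρ := le_max_right _ _
  have hρβ : ρ < β := max_lt hr (by linarith)
  set lam : ℝ := Real.log ρ / Real.log β with hlam
  have hlam0 : 0 ≤ lam := div_nonneg (Real.log_nonneg hρ1) hlβ.le
  have hlam1 : lam < 1 := by
    rw [hlam, div_lt_one hlβ]
    exact Real.log_lt_log (by linarith) hρβ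
  have hρlam : β ^ lam = ρ := by
    rw [Real.rpow_def_of_pos (by linarith), hlam, mul_div_cancel₀ _ hlβ.ne',
      Real.exp_log (by linarith)]
  set g : ℝ := 1 - lam with hg
  have hg0 : 0 < g := by linarith
  have hg1 : g ≤ 1 := by linarith
  refine ⟨g * ε / 4, by positivity, by nlinarith, ?_⟩
  have hpos : 0 < g * ε / 2 := by positivity
  filter_upwards [(tendsto_rpow_atTop hpos).eventually_ge_atTop (2 * |C|),
    eventually_ge_atTop (1 : ℝ)] with X hX hX1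
  intro j hj hr0
  have hX0 : 0 < X := by linarith
  set B : ℝ := (b : ℝ) ^ (M * j) with hB
  have hBβ : B = β ^ j := by rw [hB, hβ, pow_mul]
  have hXe1 : 1 ≤ X ^ ε := Real.one_le_rpow hX1 hε.le
  have hB1 : 1 ≤ B := hXe1.trans hj
  have hB0 : 0 < B := by linarith
  -- powers of `X` against powers of `B`
  have hpow : ∀ a : ℝ, 0 ≤ a → X ^ (ε * a) ≤ B ^ a := by
    intro a ha
    rw [Real.rpow_mul hX0.le]
    exact Real.rpow_le_rpow (by positivity) hj ha
  have h1 : X ^ (2 * (g * ε / 4)) ≤ B ^ (1 - g / 2) := by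
    calc X ^ (2 * (g * ε / 4)) = X ^ (ε * (g / 2)) := by congr 1; ring
      _ ≤ B ^ (g / 2) := hpow _ (by positivity)
      _ ≤ B ^ (1 - g / 2) := Real.rpow_le_rpow_of_exponent_le hB1 (by linarith)
  have h2 : r ^ j * X ^ (g * ε / 4) ≤ B ^ (1 - g / 2) := by
    have h3 : r ^ j ≤ B ^ lam := by
      calc r ^ j ≤ ρ ^ j := pow_le_pow_left₀ hr0 (le_max_left _ _) j
        _ = B ^ lam := by
          rw [hBβ, ← hρlam, ← Real.rpow_natCast, ← Real.rpow_natCast, ← Real.rpow_mul (by linarith),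
            ← Real.rpow_mul (by linarith), mul_comm]
    have h4 : X ^ (g * ε / 4) ≤ B ^ (g / 4) := by
      calc X ^ (g * ε / 4) = X ^ (ε * (g / 4)) := by congr 1; ring
        _ ≤ B ^ (g / 4) := hpow _ (by positivity)
    calc r ^ j * X ^ (g * ε / 4) ≤ B ^ lam * B ^ (g / 4) :=
          mul_le_mul h3 h4 (by positivity) (by positivity)
      _ = B ^ (lam + g / 4) := (Real.rpow_add hB0 _ _).symm
      _ ≤ _ := Real.rpow_le_rpow_of_exponent_le hB1 (by rw [hg]; linarith)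
  have h5 : 2 * |C| ≤ B ^ (g / 2) := by
    calc 2 * |C| ≤ X ^ (g * ε / 2) := hX
      _ = X ^ (ε * (g / 2)) := by congr 1; ring
      _ ≤ _ := hpow _ (by positivity)
  have h6 : 0 ≤ X ^ (2 * (g * ε / 4)) + r ^ j * X ^ (g * ε / 4) := by positivity
  calc C * (X ^ (2 * (g * ε / 4)) + r ^ j * X ^ (g * ε / 4))
      ≤ |C| * (X ^ (2 * (g * ε / 4)) + r ^ j * X ^ (g * ε / 4)) :=
        mul_le_mul_of_nonneg_right (le_abs_self C) h6
    _ ≤ |C| * (B ^ (1 - g / 2) + B ^ (1 - g / 2)) :=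
        mul_le_mul_of_nonneg_left (add_le_add h1 h2) (abs_nonneg C)
    _ = (2 * |C|) * B ^ (1 - g / 2) := by ring
    _ ≤ B ^ (g / 2) * B ^ (1 - g / 2) := mul_le_mul_of_nonneg_right h5 (by positivity)
    _ = B := by rw [← Real.rpow_add hB0, show g / 2 + (1 - g / 2) = 1 by ring, Real.rpow_one]

set_option maxHeartbeats 4000000 in
/-- **Core.** -/
theorem core [Finite Q] (b : ℕ) (hb : 2 ≤ b) (δ : Q → ℕ → Q) :
    ∃ K M : ℕ, 1 ≤ M ∧ ∀ (V : ℕ) (ε : ℝ), 0 < ε → ε ≤ 1 → ∃ κ : ℝ, 0 < κ ∧ ∀ᶠ X : ℝ in atTop,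
      ∀ s : ℕ → Q, Run b δ s → ∀ m₀ j : ℕ, 1 ≤ m₀ → X ^ ε ≤ (b : ℝ) ^ (M * j) →
      ∃ w₀ : ℕ, w₀ < b ^ (K + M * j + K) ∧ ∀ k v : ℕ, k ≤ V → v < b ^ k →
        X ≤ (m₀ : ℝ) * (b : ℝ) ^ (K + M * j + K + k) →
        ∃ w : ℕ, w < b ^ (K + M * j + K) ∧
          s (m₀ * b ^ (K + M * j + K) + w) = s (m₀ * b ^ (K + M * j + K) + w₀) ∧
          ∀ m : ℤ, |(m : ℝ) - (((m₀ * b ^ (K + M * j + K) + w) * b ^ k + v : ℕ) : ℝ)| ≤ κ * ff X →
            ∃ p : ℕ, p.Prime ∧ (p : ℝ) ≤ X ^ ε ∧ (p : ℤ) ∣ m ∧ (p : ℤ) < m := by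
  classical
  have _ := Fintype.ofFinite Q
  obtain ⟨K, u, hu, D, M, hD1, hM1, r, C, hr0, hr1, hC0, hW⟩ := words b hb δ
  refine ⟨K, M, hM1, ?_⟩
  intro V ε hε hε1
  have hb0 : 0 < b := by omega
  have hbR : (2 : ℝ) ≤ b := by exact_mod_cast hb
  set c : ℝ := (Fintype.card Q : ℝ) with hc
  obtain ⟨η, hη0, hηε, hexp⟩ := exponents b M hb hM1 r hr1 ε hε hε1 (c * C * (D + 1))
  obtain ⟨κ, hκ, hcrit⟩ := crit_mod η hη0 (hηε.trans hε1) (D * b ^ (K + V))
    (Nat.mul_pos hD1 (pow_pos hb0 _))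
  refine ⟨κ, hκ, ?_⟩
  filter_upwards [hexp, hcrit, eventually_ge_atTop (1 : ℝ)] with X hX1 hX2 hX3
  intro s hs m₀ j hm₀ hj
  have hX0 : 0 < X := by linarith
  set T : ℕ := K + M * j + K with hT
  set c₀ : Q := s m₀ with hc₀
  -- the word `u n u`
  set W : ℕ → ℕ := fun n => (u * b ^ (M * j) + n) * b ^ K + u with hWdef
  have hWlt : ∀ n < b ^ (M * j), W n < b ^ T := by
    intro n hn
    have h1 : u * b ^ (M * j) + n < b ^ (K + M * j) := by
      have : (u + 1) * b ^ (M * j) ≤ b ^ K * b ^ (M * j) := Nat.mul_le_mul_right _ hu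
      rw [pow_add]
      nlinarith
    have h3 : (u * b ^ (M * j) + n + 1) * b ^ K ≤ b ^ (K + M * j) * b ^ K :=
      Nat.mul_le_mul_right _ h1
    rw [hWdef, hT, pow_add]
    simp only
    nlinarith
  have hsW : ∀ n < b ^ (M * j), s (m₀ * b ^ T + W n) =
      st b δ K u (st b δ (M * j) n (st b δ K u c₀)) := by
    intro n hn
    rw [run_st b hb δ s hs T m₀ (W n) hm₀ (hWlt n hn), hT, hWdef]
    simp only
    rw [st_add b hb0 δ _ _ _ _ _ hu, st_add b hb0 δ _ _ _ _ _ hn]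
  -- a popular state
  obtain ⟨y, hy⟩ : ∃ y : Q, (b : ℝ) ^ (M * j) ≤ c * (((range (b ^ (M * j))).filter (fun n =>
      st b δ K u (st b δ (M * j) n (st b δ K u c₀)) = y)).card : ℝ) := by
    by_contra hcon
    push Not at hcon
    have h1 : ((b ^ (M * j) : ℕ) : ℝ) = ∑ y : Q, (((range (b ^ (M * j))).filter (fun n =>
        st b δ K u (st b δ (M * j) n (st b δ K u c₀)) = y)).card : ℝ) := by
      rw [← Nat.cast_sum, ← card_eq_sum_card_fiberwise (s := range (b ^ (M * j)))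
        (f := fun n => st b δ K u (st b δ (M * j) n (st b δ K u c₀))) (t := univ)
        (fun _ _ => mem_coe.2 (mem_univ _)), card_range]
    have hne : (univ : Finset Q).Nonempty := ⟨c₀, mem_univ _⟩
    have h2 := sum_lt_sum_of_nonempty hne (fun y _ => hcon y)
    rw [← mul_sum, ← h1, sum_const, nsmul_eq_mul, card_univ, ← hc] at h2
    push_cast at h2
    exact lt_irrefl _ h2
  set F : Finset ℕ := (range (b ^ (M * j))).filter (fun n =>
      st b δ K u (st b δ (M * j) n (st b δ K u c₀)) = y) with hF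
  have hBpos : (0 : ℝ) < (b : ℝ) ^ (M * j) := by positivity
  have hc1 : (0 : ℝ) < c := by
    rw [hc]
    exact_mod_cast Fintype.card_pos_iff.2 ⟨c₀⟩
  have hFcard : (0 : ℝ) < F.card := by
    by_contra hcon
    push Not at hcon
    have : (F.card : ℝ) = 0 := le_antisymm hcon (Nat.cast_nonneg _)
    rw [this, mul_zero] at hy
    linarith
  have hFne : F.Nonempty := by
    rw [← card_pos]
    exact_mod_cast hFcard
  obtain ⟨n₀, hn₀⟩ := hFne
  have hn₀' := (mem_filter.1 hn₀)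
  refine ⟨W n₀, hWlt n₀ (mem_range.1 hn₀'.1), ?_⟩
  intro k v hkV hv hXm
  have hXcr := hX2 ℕ F (fun n => (((m₀ * b ^ T + W n) * b ^ k + v : ℕ) : ℤ)) ⟨n₀, hn₀⟩ (by
    intro n _
    push_cast
    rw [pow_add, ← mul_assoc] at hXm
    have h1 : (0 : ℝ) ≤ (W n : ℝ) := Nat.cast_nonneg _
    have h2 : (0 : ℝ) ≤ (v : ℝ) := Nat.cast_nonneg _
    have h3 : (0 : ℝ) ≤ (W n : ℝ) * (b : ℝ) ^ k := by positivity
    nlinarith) (by
    intro q h hq hh1 hhq hndvd
    have hq0 : 0 < q := by omega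
    have hq' : (0 : ℝ) < q := by exact_mod_cast hq0
    have hD0 : (0 : ℝ) < D := by exact_mod_cast hD1
    set θ : ℝ := (h : ℝ) / q * (b : ℝ) ^ (K + k) with hθ
    set α : ℝ := (h : ℝ) / q * (((m₀ * b ^ T + (u * b ^ (M * j) * b ^ K + u)) * b ^ k + v : ℕ) : ℝ)
      with hα
    have e1 : ∑ n ∈ F, e ((h : ℝ) / q * ((((m₀ * b ^ T + W n) * b ^ k + v : ℕ) : ℤ) : ℝ)) =
        e α * ∑ n ∈ F, e (n * θ) := by
      rw [mul_sum]
      refine sum_congr rfl fun n _ => ?_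
      rw [← e_add]
      congr 1
      rw [hα, hθ, hWdef]
      push_cast
      rw [pow_add]
      ring
    rw [e1, norm_mul, norm_e, one_mul]
    have h1 : ∀ m : ℤ, 1 / ((q : ℝ) * D) ≤ |θ - m / D| := by
      intro m
      have h2 : θ - m / D = (((D * b ^ (K + k) * h : ℕ) : ℤ) - m * q : ℤ) / ((q : ℝ) * D) := by
        rw [hθ]
        push_cast
        field_simp
      have h3 : (((D * b ^ (K + k) * h : ℕ) : ℤ) - m * q : ℤ) ≠ 0 := by
        intro h4
        apply hndvd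
        have h5 : ((q : ℕ) : ℤ) ∣ ((D * b ^ (K + k) * h : ℕ) : ℤ) := ⟨m, by linarith⟩
        have h6 : q ∣ D * b ^ (K + k) * h := by exact_mod_cast h5
        have h7 : D * b ^ (K + V) * h = (D * b ^ (K + k) * h) * b ^ (V - k) := by
          have : K + V = (K + k) + (V - k) := by omega
          rw [this, pow_add b (K + k) (V - k)]
          ring
        rw [h7]
        exact h6.mul_right _
      rw [h2, abs_div, abs_of_pos (show (0 : ℝ) < (q : ℝ) * D by positivity)]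
      apply div_le_div_of_nonneg_right _ (by positivity)
      have h8 := Int.one_le_abs h3
      have h9 : ((1 : ℤ) : ℝ) ≤ ((|(((D * b ^ (K + k) * h : ℕ) : ℤ) - m * q : ℤ)| : ℤ) : ℝ) := by
        exact_mod_cast h8
      rw [Int.cast_abs] at h9
      push_cast at h9 ⊢
      exact h9
    have h2 := hW c₀ y j θ (1 / ((q : ℝ) * D)) (by positivity) h1
    simp only [decide_eq_true_eq] at h2
    have h2' : ‖∑ n ∈ F, e (n * θ)‖ ≤ C / (1 / ((q : ℝ) * D)) + C * r ^ j := h2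
    refine h2'.trans ?_
    rw [div_div_eq_mul_div, div_one, Real.rpow_neg hX0.le, ← div_eq_mul_inv,
      le_div_iff₀ (by positivity)]
    -- compare with the number of elements
    have h3 := hX1 j hj hr0
    have h4 : c * C * (D + 1) * (X ^ (2 * η) + r ^ j * X ^ η) ≤ c * F.card := h3.trans hy
    have h5 : (D + 1) * C * (X ^ (2 * η) + r ^ j * X ^ η) ≤ F.card := by
      have : c * ((D + 1) * C * (X ^ (2 * η) + r ^ j * X ^ η)) ≤ c * F.card := by
        calc _ = c * C * (D + 1) * (X ^ (2 * η) + r ^ j * X ^ η) := by ring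
          _ ≤ _ := h4
      exact le_of_mul_le_mul_left this hc1
    refine le_trans ?_ h5
    have h6 : X ^ (2 * η) = X ^ η * X ^ η := by
      rw [← Real.rpow_add hX0]
      congr 1
      ring
    rw [h6]
    have h7 : 0 ≤ X ^ η := by positivity
    have h8 : 0 ≤ r ^ j := pow_nonneg hr0 _
    have h9 : (q : ℝ) * D * X ^ η ≤ X ^ η * (D + 1) * X ^ η := by
      apply mul_le_mul_of_nonneg_right _ h7
      nlinarith
    have h10 : r ^ j * X ^ η ≤ (D + 1) * (r ^ j * X ^ η) := by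
      have : 0 ≤ r ^ j * X ^ η := by positivity
      nlinarith
    calc (C * ((q : ℝ) * D) + C * r ^ j) * X ^ η
        = C * ((q : ℝ) * D * X ^ η) + C * (r ^ j * X ^ η) := by ring
      _ ≤ C * (X ^ η * (D + 1) * X ^ η) + C * ((D + 1) * (r ^ j * X ^ η)) :=
          add_le_add (mul_le_mul_of_nonneg_left h9 hC0) (mul_le_mul_of_nonneg_left h10 hC0)
      _ = _ := by ring)
  obtain ⟨n, hn, hn2⟩ := hXcr
  have hn' := mem_filter.1 hn
  refine ⟨W n, hWlt n (mem_range.1 hn'.1), ?_, ?_⟩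
  · rw [hsW n (mem_range.1 hn'.1), hsW n₀ (mem_range.1 hn₀'.1), hn'.2, hn₀'.2]
  · intro m hm
    obtain ⟨p, hp1, hp2, hp3, hp4⟩ := hn2 m (by exact_mod_cast hm)
    refine ⟨p, hp1, hp2.trans ?_, hp3, hp4⟩
    exact Real.rpow_le_rpow_of_exponent_le hX3 hηε

end Pool.Agent.Run7.h560.AUT
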