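import Pool.Agent.Run7.h560.AUT.Lin

set_option autoImplicit false
set_option linter.unusedSectionVars false

/-!
# Exponential sums over the words leading to a given state
-/

namespace Pool.Agent.Run7.h560.AUT

open Finset
open Pool.Agent.H469R2.NK (e norm_e e_add e_zero)
open Pool.Agent.TH915.PW (e_int norm_linear)

lemma sum_blocks {R : Type*} [AddCommMonoid R] (b N : ℕ) (f : ℕ → R) :
    ∑ n ∈ range (b * N), f n = ∑ m ∈ range N, ∑ d ∈ range b, f (b * m + d) := by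
  induction N with
  | zero => simp
  | succ N ih => rw [Nat.mul_succ, sum_range_add, ih, sum_range_succ]

namespace Dat

variable {Q : Type} [Finite Q] (A : Dat Q)

/-- the sum over the words of length `L` from the state `c` -/
noncomputable def S (L : ℕ) (θ : ℝ) (ψ : Q → ℂ) (c : Q) : ℂ :=
  ∑ n ∈ range (A.b ^ L), e (n * θ) * ψ (A.s L n c)

/-- the restriction to the image of `U` of a transform -/
noncomputable def R (k n : ℕ) (ψ : Q → ℂ) : A.H := WithLp.toLp 2 (fun i => ψ (A.s k n i.1))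

lemma R_apply (k n : ℕ) (ψ : Q → ℂ) (i : A.I) : A.R k n ψ i = ψ (A.s k n i.1) := rfl

/-- `ψ` and its transforms are orthogonal to `E` and bounded by `B` on the image of `U` -/
def P (B : ℝ) (ψ : Q → ℂ) : Prop :=
  ∀ k n : ℕ, n < A.b ^ k → ‖A.R k n ψ‖ ≤ B ∧ A.R k n ψ ∈ A.Eᗮ

lemma R_S (k n L : ℕ) (θ : ℝ) (ψ : Q → ℂ) :
    A.R k n (A.S L θ ψ) = ∑ m ∈ range (A.b ^ L), e (m * θ) • A.R (k + L) (n * A.b ^ L + m) ψ := by
  ext i
  rw [R_apply]
  unfold S
  simp only [WithLp.ofLp_sum, WithLp.ofLp_smul, Finset.sum_apply, Pi.smul_apply, smul_eq_mul]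
  refine sum_congr rfl fun m hm => ?_
  congr 1
  rw [R_apply, A.s_add _ _ _ _ _ (mem_range.1 hm)]

lemma S_add (j k : ℕ) (θ : ℝ) (ψ : Q → ℂ) (c : Q) :
    A.S (j + k) θ ψ c = A.S j ((A.b : ℝ) ^ k * θ) (A.S k θ ψ) c := by
  unfold S
  rw [pow_add, mul_comm (A.b ^ j) (A.b ^ k), sum_blocks]
  refine sum_congr rfl fun n _ => ?_
  rw [mul_sum]
  refine sum_congr rfl fun m hm => ?_
  rw [mul_comm (A.b ^ k) n, A.s_add _ _ _ _ _ (mem_range.1 hm), ← mul_assoc, ← e_add]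
  congr 2
  push_cast
  ring

/-- the word `u` `a` `u` -/
def cc (M a : ℕ) : ℕ := (A.u * A.b ^ M + a) * A.b ^ A.K + A.u

lemma cc_lt (M a : ℕ) (ha : a < A.b ^ M) : A.cc M a < A.b ^ (A.K + M + A.K) := by
  unfold cc
  have h1 : A.u * A.b ^ M + a < A.b ^ (A.K + M) := by
    have : (A.u + 1) * A.b ^ M ≤ A.b ^ A.K * A.b ^ M := Nat.mul_le_mul_right _ A.hu
    rw [pow_add]
    nlinarith
  have h3 : (A.u * A.b ^ M + a + 1) * A.b ^ A.K ≤ A.b ^ (A.K + M) * A.b ^ A.K :=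
    Nat.mul_le_mul_right _ h1
  have h2 := A.hu
  rw [pow_add]
  nlinarith

lemma cc_inj (M : ℕ) : Function.Injective (A.cc M) := by
  intro a a' h
  unfold cc at h
  have hb : 0 < A.b ^ A.K := A.b_pos _
  have h1 : (A.u * A.b ^ M + a) * A.b ^ A.K = (A.u * A.b ^ M + a') * A.b ^ A.K := by omega
  have h2 := Nat.eq_of_mul_eq_mul_right hb h1
  omega

lemma s_cc (M a : ℕ) (ha : a < A.b ^ M) (c : Q) :
    A.s (A.K + M + A.K) (A.cc M a) c = A.U (A.s M a (A.U c)) := by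
  unfold cc
  rw [A.s_add _ _ _ _ _ A.hu, A.s_add _ _ _ _ _ ha]
  rfl

lemma R_cc (k n M a : ℕ) (ha : a < A.b ^ M) (ψ : Q → ℂ) :
    A.R (k + (A.K + M + A.K)) (n * A.b ^ (A.K + M + A.K) + A.cc M a) ψ =
      A.Pi k n (A.Pi M a (A.R 0 0 ψ)) := by
  ext i
  rw [R_apply, Pi_apply, Pi_apply, R_apply, A.s_add _ _ _ _ _ (A.cc_lt M a ha), A.s_cc _ _ ha,
    A.s_zero, π_val, π_val]

/-- one step of contraction -/
lemma step (M : ℕ) (ρ : ℝ) (hρ : 0 ≤ ρ) (hρ2 : ρ < (A.b : ℝ) ^ M)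
    (hc : ∀ (x : ℝ) (φ : A.H), φ ∈ A.Eᗮ → ‖A.SA M x φ‖ ≤ ρ * ‖φ‖) (B : ℝ) (ψ : Q → ℂ)
    (hψ : A.P B ψ) (θ : ℝ) :
    A.P (((A.b : ℝ) ^ (A.K + M + A.K) - (A.b : ℝ) ^ M + ρ) * B) (A.S (A.K + M + A.K) θ ψ) := by
  classical
  intro k n hn
  have hB : 0 ≤ B := (norm_nonneg _).trans (hψ 0 0 (by simp)).1
  rw [R_S]
  set L := A.K + M + A.K with hL
  have hlt : ∀ m ∈ range (A.b ^ L), n * A.b ^ L + m < A.b ^ (k + L) := by
    intro m hm
    rw [mem_range] at hm
    have : (n + 1) * A.b ^ L ≤ A.b ^ k * A.b ^ L := Nat.mul_le_mul_right _ hn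
    rw [pow_add A.b k L]
    nlinarith
  refine ⟨?_, Submodule.sum_mem _ fun m hm => Submodule.smul_mem _ _ (hψ _ _ (hlt m hm)).2⟩
  set f : ℕ → A.H := fun m => e (m * θ) • A.R (k + L) (n * A.b ^ L + m) ψ with hf
  have hfn : ∀ m ∈ range (A.b ^ L), ‖f m‖ ≤ B := by
    intro m hm
    rw [hf]
    simp only
    rw [norm_smul, norm_e, one_mul]
    exact (hψ _ _ (hlt m hm)).1
  set T : Finset ℕ := (range (A.b ^ M)).image (A.cc M) with hT
  have hTs : T ⊆ range (A.b ^ L) := by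
    intro m hm
    rw [hT, mem_image] at hm
    obtain ⟨a, ha, rfl⟩ := hm
    exact mem_range.2 (A.cc_lt M a (mem_range.1 ha))
  have hTc : T.card = A.b ^ M := by
    rw [hT, card_image_of_injective _ (A.cc_inj M), card_range]
  rw [← sum_sdiff hTs]
  have h1 : ‖∑ m ∈ range (A.b ^ L) \ T, f m‖ ≤ ((A.b : ℝ) ^ L - (A.b : ℝ) ^ M) * B := by
    refine (norm_sum_le _ _).trans ?_
    refine (sum_le_card_nsmul _ _ B (fun m hm => hfn m (mem_sdiff.1 hm).1)).trans ?_
    rw [nsmul_eq_mul, card_sdiff_of_subset hTs, card_range, hTc, Nat.cast_sub]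
    · push_cast
      exact le_rfl
    · apply Nat.pow_le_pow_right A.hb1
      omega
  have h2 : ∑ m ∈ T, f m = e (((A.u : ℝ) * (A.b : ℝ) ^ (M + A.K) + A.u) * θ) •
      A.Pi k n (A.SA M ((A.b : ℝ) ^ A.K * θ) (A.R 0 0 ψ)) := by
    rw [hT, sum_image (fun _ _ _ _ h => A.cc_inj M h)]
    unfold SA
    rw [map_sum, smul_sum]
    refine sum_congr rfl fun a ha => ?_
    rw [hf]
    simp only
    rw [A.R_cc _ _ _ _ (mem_range.1 ha), map_smul, smul_smul, ← e_add]
    congr 2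
    unfold cc
    push_cast
    rw [pow_add]
    ring
  have h3 : ‖∑ m ∈ T, f m‖ ≤ ρ * B := by
    rw [h2, norm_smul, norm_e, one_mul, A.norm_Pi _ _ hn]
    obtain ⟨h4, h5⟩ := hψ 0 0 (by simp)
    exact (hc _ _ h5).trans (mul_le_mul_of_nonneg_left h4 hρ)
  refine (norm_add_le _ _).trans ?_
  calc _ ≤ ((A.b : ℝ) ^ L - (A.b : ℝ) ^ M) * B + ρ * B := add_le_add h1 h3
    _ = _ := by ring

/-- Iterated contraction. -/
lemma iterate (L : ℕ) (r : ℝ) (hstep : ∀ (B : ℝ) (ψ : Q → ℂ), A.P B ψ → ∀ θ : ℝ,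
    A.P (r * B) (A.S L θ ψ)) (B : ℝ) (ψ : Q → ℂ) (hψ : A.P B ψ) (θ : ℝ) (j : ℕ) :
    A.P (r ^ j * B) (A.S (L * j) θ ψ) := by
  induction j with
  | zero =>
    have : A.S (L * 0) θ ψ = ψ := by
      funext c
      simp [S, s_zero, e_zero]
    rw [this, pow_zero, one_mul]
    exact hψ
  | succ j ih =>
    have : A.S (L * (j + 1)) θ ψ = A.S L ((A.b : ℝ) ^ (L * j) * θ) (A.S (L * j) θ ψ) := by
      funext c
      rw [← S_add]
      congr 1
      ring
    rw [this, pow_succ, mul_comm (r ^ j) r, mul_assoc]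
    exact hstep _ _ ih _

/-- the function on the states defined by a vector -/
noncomputable def ext (η : A.H) (c : Q) : ℂ := η ⟨A.U c, ⟨c, rfl⟩⟩

lemma R_ext (η : A.H) (k n : ℕ) : A.R k n (A.ext η) = A.Pi k n η := by
  ext i
  rw [R_apply, Pi_apply]
  rfl

lemma P_ext (η : A.H) (hη : η ∈ A.Eᗮ) : A.P ‖η‖ (A.ext η) := by
  intro k n hn
  rw [R_ext]
  exact ⟨(A.norm_Pi k n hn η).le, A.W_Pi η hη k n hn⟩

lemma norm_coord_le (φ : A.H) (i : A.I) : ‖φ i‖ ≤ ‖φ‖ := PiLp.norm_apply_le φ i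

/-- The part orthogonal to the obstructions: uniform power saving. -/
theorem W_bound : ∃ (M : ℕ) (r : ℝ), 1 ≤ M ∧ 0 ≤ r ∧ r < (A.b : ℝ) ^ M ∧ ∀ η ∈ A.Eᗮ,
    ∀ (i : A.I) (j : ℕ) (θ : ℝ), ‖A.S (M * j) θ (A.ext η) i.1‖ ≤ r ^ j * ‖η‖ := by
  obtain ⟨M, ρ, h1, h2, h3⟩ := A.contraction
  -- the case of length zero is excluded
  have hbR : (1 : ℝ) < A.b := by have := A.hb; exact_mod_cast (by omega : 1 < A.b)
  have hr1 : (A.b : ℝ) ^ M ≤ (A.b : ℝ) ^ (A.K + M + A.K) := by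
    apply pow_le_pow_right₀ hbR.le; omega
  by_cases hL : A.K + M + A.K = 0
  · -- then `E` is everything
    have hM : M = 0 := by omega
    have hE : ∀ η ∈ A.Eᗮ, η = 0 := by
      intro η hη
      have h4 := h3 0 η hη
      subst hM
      have h5 : A.SA 0 0 η = A.Pi 0 0 η := by
        simp [SA, e_zero]
      rw [h5, A.norm_Pi 0 0 (by simp)] at h4
      rw [pow_zero] at h2
      have h6 := norm_nonneg η
      have : ‖η‖ = 0 := by nlinarith
      exact norm_eq_zero.1 this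
    refine ⟨1, 0, le_rfl, le_rfl, by rw [pow_one]; linarith, ?_⟩
    intro η hη i j θ
    rw [hE η hη]
    have : A.ext (0 : A.H) = fun _ => 0 := by
      funext c
      rfl
    rw [this]
    simp [S]
  · refine ⟨A.K + M + A.K, (A.b : ℝ) ^ (A.K + M + A.K) - (A.b : ℝ) ^ M + ρ, by omega, by linarith,
      by linarith, ?_⟩
    intro η hη i j θ
    have h4 := A.iterate (A.K + M + A.K) _ (fun B ψ hψ θ => A.step M ρ h1 h2 h3 B ψ hψ θ) ‖η‖
      (A.ext η) (A.P_ext η hη) θ j 0 0 (by simp)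
    have h5 := A.norm_coord_le (A.R 0 0 (A.S ((A.K + M + A.K) * j) θ (A.ext η))) i
    rw [R_apply, s_zero] at h5
    exact h5.trans h4.1

/-- The obstructions: geometric sums. -/
theorem E_bound (D : ℕ) (hD1 : 1 ≤ D) (hD : ∀ (x : ℝ) (φ : A.H), φ ∈ A.Ob x → φ ≠ 0 →
    ∃ m : ℤ, x = m / D) (η : A.H) (hη : η ∈ A.E) : ∃ C : ℝ, 0 ≤ C ∧ ∀ (i : A.I) (L : ℕ) (θ d : ℝ),
    0 < d → (∀ m : ℤ, d ≤ |θ - m / D|) → ‖A.S L θ (A.ext η) i.1‖ ≤ C / d := by
  have hD0 : (0 : ℝ) < D := by exact_mod_cast hD1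
  unfold E at hη
  induction hη using Submodule.iSup_induction' with
  | mem x φ h =>
    refine ⟨2 * ‖φ‖, by positivity, ?_⟩
    intro i L θ d hd hm
    by_cases h0 : φ = 0
    · subst h0
      have : A.ext (0 : A.H) = fun _ => 0 := by
        funext c
        rfl
      rw [this]
      simp [S]
    obtain ⟨t, ht⟩ := hD x φ h h0
    have h1 : A.S L θ (A.ext φ) i.1 =
        (∑ n ∈ range (A.b ^ L), e (n * (θ - x))) * (A.Pi L 0 φ) i := by
      unfold S
      rw [sum_mul]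
      refine sum_congr rfl fun n hn => ?_
      have h2 := h L n (mem_range.1 hn)
      rw [← h2]
      have h3 : A.ext φ (A.s L n i.1) = (A.Pi L n φ) i := by
        rw [Pi_apply]; rfl
      rw [h3]
      simp only [WithLp.ofLp_smul, Pi.smul_apply, smul_eq_mul]
      rw [← mul_assoc, ← e_add]
      congr 2
      ring
    rw [h1, norm_mul]
    have h4 : ‖∑ n ∈ range (A.b ^ L), e (n * (θ - x))‖ ≤ 2 / d := by
      have hfl := Int.floor_add_fract (θ - x)
      have hmm : ∀ m : ℤ, d ≤ |θ - x - m| := by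
        intro m
        have h5 := hm (t + m * D)
        have h6 : θ - ((t + m * D : ℤ) : ℝ) / D = θ - x - m := by
          rw [ht]
          push_cast
          field_simp
          ring
        rwa [h6] at h5
      refine norm_linear (fun n => n * (θ - x)) _ (θ - x) d hd ?_ ?_ (fun n _ => by
        push_cast; ring)
      · have h5 := hmm ⌊θ - x⌋
        rw [show θ - x - (⌊θ - x⌋ : ℝ) = Int.fract (θ - x) by linarith,
          abs_of_nonneg (Int.fract_nonneg _)] at h5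
        exact h5
      · have h5 := hmm (⌊θ - x⌋ + 1)
        rw [show θ - x - ((⌊θ - x⌋ + 1 : ℤ) : ℝ) = Int.fract (θ - x) - 1 by push_cast; linarith,
          abs_of_nonpos (by linarith [Int.fract_lt_one (θ - x)])] at h5
        linarith
    have h5 : ‖(A.Pi L 0 φ) i‖ ≤ ‖φ‖ := by
      rw [← A.norm_Pi L 0 (A.b_pos L) φ]
      exact A.norm_coord_le _ i
    calc _ ≤ 2 / d * ‖φ‖ := mul_le_mul h4 h5 (norm_nonneg _) (by positivity)
      _ = _ := by ring
  | zero =>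
    refine ⟨0, le_rfl, ?_⟩
    intro i L θ d hd hm
    have : A.ext (0 : A.H) = fun _ => 0 := by
      funext c
      rfl
    rw [this]
    simp [S]
  | add φ ψ _ _ h1 h2 =>
    obtain ⟨C1, hC1, h1⟩ := h1
    obtain ⟨C2, hC2, h2⟩ := h2
    refine ⟨C1 + C2, by positivity, ?_⟩
    intro i L θ d hd hm
    have h3 : A.S L θ (A.ext (φ + ψ)) i.1 = A.S L θ (A.ext φ) i.1 + A.S L θ (A.ext ψ) i.1 := by
      unfold S
      rw [← sum_add_distrib]
      refine sum_congr rfl fun n _ => ?_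
      rw [← mul_add]
      rfl
    rw [h3, add_div]
    exact (norm_add_le _ _).trans (add_le_add (h1 i L θ d hd hm) (h2 i L θ d hd hm))

end Dat

/-- **Exponential sums over the words leading from one state to another.**  `U` is the map of a word of
minimal rank; away from the multiples of `1 / D` there is a power saving, uniformly. -/
theorem words {Q : Type} [Finite Q] (b : ℕ) (hb : 2 ≤ b) (δ : Q → ℕ → Q) :
    ∃ K u : ℕ, u < b ^ K ∧ ∃ D M : ℕ, 1 ≤ D ∧ 1 ≤ M ∧ ∃ r C : ℝ, 0 ≤ r ∧ r < (b : ℝ) ^ M ∧ 0 ≤ C ∧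
      ∀ (c₀ y : Q) (j : ℕ) (θ d : ℝ), 0 < d → (∀ m : ℤ, d ≤ |θ - m / D|) →
        ‖∑ n ∈ (range (b ^ (M * j))).filter (fun n => (Classical.propDecidable
          (st b δ K u (st b δ (M * j) n (st b δ K u c₀)) = y)).decide = true), e (n * θ)‖ ≤
            C / d + C * r ^ j := by
  classical
  obtain ⟨K, u, hu, hmin⟩ := exists_min b δ
  let A : Dat Q := ⟨b, δ, K, u, hb, hu, hmin⟩
  obtain ⟨D, hD1, hD⟩ := A.exists_D
  obtain ⟨M, r, hM, hr0, hr1, hW⟩ := A.W_bound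
  -- constants for every state
  have hy : ∀ y : A.I, ∃ C : ℝ, 0 ≤ C ∧ ∀ (i : A.I) (j : ℕ) (θ d : ℝ), 0 < d →
      (∀ m : ℤ, d ≤ |θ - m / D|) →
      ‖A.S (M * j) θ (A.ext (EuclideanSpace.single y (1 : ℂ))) i.1‖ ≤ C / d + C * r ^ j := by
    intro y
    obtain ⟨η₁, h1, η₂, h2, h12⟩ := Submodule.exists_add_mem_mem_orthogonal (K := A.E)
      (EuclideanSpace.single y (1 : ℂ))
    obtain ⟨C, hC, hCb⟩ := A.E_bound D hD1 hD η₁ h1
    refine ⟨max C ‖η₂‖, le_max_of_le_left hC, ?_⟩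
    intro i j θ d hd hm
    have h3 : A.S (M * j) θ (A.ext (EuclideanSpace.single y (1 : ℂ))) i.1 =
        A.S (M * j) θ (A.ext η₁) i.1 + A.S (M * j) θ (A.ext η₂) i.1 := by
      rw [h12]
      unfold Dat.S
      rw [← sum_add_distrib]
      refine sum_congr rfl fun n _ => ?_
      rw [← mul_add]
      rfl
    rw [h3]
    refine (norm_add_le _ _).trans (add_le_add ?_ ?_)
    · refine (hCb i (M * j) θ d hd hm).trans ?_
      apply div_le_div_of_nonneg_right (le_max_left _ _) hd.le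
    · refine (hW η₂ h2 i j θ).trans ?_
      rw [mul_comm]
      exact mul_le_mul_of_nonneg_right (le_max_right _ _) (pow_nonneg hr0 _)
  choose C hC0 hC using hy
  refine ⟨K, u, hu, D, M, hD1, hM, r, ∑ y, C y, hr0, hr1, sum_nonneg fun y _ => hC0 y, ?_⟩
  intro c₀ y j θ d hd hm
  simp only [decide_eq_true_eq]
  by_cases hyI : y ∈ Set.range A.U
  · have h1 := hC ⟨y, hyI⟩ ⟨A.U c₀, ⟨c₀, rfl⟩⟩ j θ d hd hm
    have h2 : A.S (M * j) θ (A.ext (EuclideanSpace.single (⟨y, hyI⟩ : A.I) (1 : ℂ))) (A.U c₀) =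
        ∑ n ∈ (range (b ^ (M * j))).filter (fun n =>
          st b δ K u (st b δ (M * j) n (st b δ K u c₀)) = y), e (n * θ) := by
      unfold Dat.S
      rw [sum_filter]
      refine sum_congr rfl fun n _ => ?_
      have h3 : A.ext (EuclideanSpace.single (⟨y, hyI⟩ : A.I) (1 : ℂ))
          (A.s (M * j) n (A.U c₀)) =
          if st b δ K u (st b δ (M * j) n (st b δ K u c₀)) = y then 1 else 0 := by
        unfold Dat.ext
        rw [PiLp.single_apply]
        congr 1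
        apply propext
        constructor
        · intro h
          exact congrArg Subtype.val h
        · intro h
          exact Subtype.ext h
      rw [h3]
      split_ifs <;> simp
    rw [← h2]
    refine h1.trans ?_
    have h4 : C ⟨y, hyI⟩ ≤ ∑ y, C y := single_le_sum (fun y _ => hC0 y) (mem_univ _)
    have h5 : 0 ≤ r ^ j := pow_nonneg hr0 _
    apply add_le_add
    · exact div_le_div_of_nonneg_right h4 hd.le
    · exact mul_le_mul_of_nonneg_right h4 h5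
  · have h1 : (range (b ^ (M * j))).filter (fun n =>
        st b δ K u (st b δ (M * j) n (st b δ K u c₀)) = y) = ∅ := by
      rw [filter_eq_empty_iff]
      intro n _ h
      exact hyI ⟨_, h⟩
    rw [h1, sum_empty, norm_zero]
    have h5 : 0 ≤ r ^ j := pow_nonneg hr0 _
    have h6 : 0 ≤ ∑ y, C y := sum_nonneg fun y _ => hC0 y
    positivity

end Pool.Agent.Run7.h560.AUT
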