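import Pool.Agent.Run7.h560.AUT.Basic
import Pool.Agent.TH915.PW.ExpC

set_option autoImplicit false
set_option linter.unusedSectionVars false

/-!
# The unitary operators of the words, the obstructions, and a uniform contraction
-/

namespace Pool.Agent.Run7.h560.AUT

open Finset
open Pool.Agent.H469R2.NK (e norm_e e_add e_zero)
open Pool.Agent.TH915.PW (e_int norm_linear)

lemma e_ne (x : ℝ) : e x ≠ 0 := by
  intro h
  have := norm_e x
  rw [h, norm_zero] at this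
  norm_num at this

lemma e_eq_one (x : ℝ) (h : e x = 1) : ∃ m : ℤ, x = m := by
  unfold Pool.Agent.H469R2.NK.e at h
  rw [Complex.exp_eq_one_iff] at h
  obtain ⟨m, hm⟩ := h
  refine ⟨m, ?_⟩
  have h2 : ((2 * Real.pi * x : ℝ) : ℂ) = (m : ℂ) * (2 * Real.pi) := by
    have hI : Complex.I ≠ 0 := Complex.I_ne_zero
    apply mul_right_cancel₀ hI
    rw [hm]; ring
  have h3 : (2 * Real.pi * x : ℝ) = (m : ℝ) * (2 * Real.pi) := by exact_mod_cast h2
  have h4 : (2 * Real.pi : ℝ) ≠ 0 := by positivity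
  apply mul_left_cancel₀ h4
  rw [h3]; ring

lemma continuous_e : Continuous e := by
  unfold Pool.Agent.H469R2.NK.e
  fun_prop

namespace Dat

variable {Q : Type} [Finite Q] (A : Dat Q)

abbrev H : Type := EuclideanSpace ℂ A.I

/-- composition with the permutation `π k n` -/
noncomputable def Pi (k n : ℕ) : A.H →ₗ[ℂ] A.H where
  toFun φ := WithLp.toLp 2 (fun i => φ (A.π k n i))
  map_add' _ _ := rfl
  map_smul' _ _ := rfl

lemma Pi_apply (k n : ℕ) (φ : A.H) (i : A.I) : A.Pi k n φ i = φ (A.π k n i) := rfl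

lemma norm_Pi (k n : ℕ) (hn : n < A.b ^ k) (φ : A.H) : ‖A.Pi k n φ‖ = ‖φ‖ := by
  rw [EuclideanSpace.norm_eq, EuclideanSpace.norm_eq]
  congr 1
  exact (Equiv.ofBijective _ (A.π_bij k n hn)).sum_comp (fun i => ‖φ i‖ ^ 2)

/-- as an isometry -/
noncomputable def PiI (k n : ℕ) (hn : n < A.b ^ k) : A.H →ₗᵢ[ℂ] A.H :=
  ⟨A.Pi k n, A.norm_Pi k n hn⟩

lemma Pi_inj (k n : ℕ) (hn : n < A.b ^ k) : Function.Injective (A.Pi k n) :=
  (A.PiI k n hn).injective

lemma Pi_cat (k n j m : ℕ) (hm : m < A.b ^ j) (φ : A.H) :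
    A.Pi (k + A.K + j) (A.cat n j m) φ = A.Pi k n (A.Pi j m φ) := by
  ext i
  rw [Pi_apply, Pi_apply, Pi_apply, A.π_cat _ _ _ _ hm]

/-- the vectors whose transforms by the words of equal length differ by the character `x` -/
noncomputable def Ob (x : ℝ) : Submodule ℂ A.H where
  carrier := {φ | ∀ k n : ℕ, n < A.b ^ k → e (n * x) • A.Pi k n φ = A.Pi k 0 φ}
  add_mem' := by
    intro φ ψ h1 h2 k n hn
    rw [map_add, map_add, smul_add, h1 k n hn, h2 k n hn]
  zero_mem' := by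
    intro k n hn
    simp
  smul_mem' := by
    intro c φ h k n hn
    rw [map_smul, map_smul, smul_comm, h k n hn]

lemma mem_Ob (x : ℝ) (φ : A.H) :
    φ ∈ A.Ob x ↔ ∀ k n : ℕ, n < A.b ^ k → e (n * x) • A.Pi k n φ = A.Pi k 0 φ := Iff.rfl

lemma b_pos (k : ℕ) : 0 < A.b ^ k := pow_pos (by have := A.hb; omega) k

lemma cat_cast (n j m : ℕ) : ((A.cat n j m : ℕ) : ℝ) =
    (n : ℝ) * (A.b : ℝ) ^ (A.K + j) + ((A.u : ℝ) * (A.b : ℝ) ^ j + m) := by
  unfold cat
  push_cast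
  rw [pow_add]
  ring

lemma Ob_Pi (x : ℝ) (φ : A.H) (hφ : φ ∈ A.Ob x) (k n : ℕ) (hn : n < A.b ^ k) :
    A.Pi k n φ ∈ A.Ob ((A.b : ℝ) ^ (A.K + k) * x) := by
  rw [mem_Ob]
  intro j m hm
  have h1 := hφ (j + A.K + k) (A.cat m k n) (A.cat_lt _ _ _ _ hm hn)
  have h2 := hφ (j + A.K + k) (A.cat 0 k n) (A.cat_lt _ _ _ _ (A.b_pos j) hn)
  rw [← h2, A.Pi_cat _ _ _ _ hn, A.Pi_cat _ _ _ _ hn, cat_cast, cat_cast] at h1
  have e1 : ((m : ℝ) * (A.b : ℝ) ^ (A.K + k) + ((A.u : ℝ) * (A.b : ℝ) ^ k + n)) * x =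
      ((A.u : ℝ) * (A.b : ℝ) ^ k + n) * x + m * ((A.b : ℝ) ^ (A.K + k) * x) := by ring
  have e2 : (((0 : ℕ) : ℝ) * (A.b : ℝ) ^ (A.K + k) + ((A.u : ℝ) * (A.b : ℝ) ^ k + n)) * x =
      ((A.u : ℝ) * (A.b : ℝ) ^ k + n) * x := by push_cast; ring
  rw [e1, e2, e_add, mul_smul] at h1
  exact smul_right_injective _ (e_ne _) h1

/-- the span of the obstructions -/
noncomputable def E : Submodule ℂ A.H := ⨆ x : ℝ, A.Ob x

lemma E_Pi (φ : A.H) (hφ : φ ∈ A.E) (k n : ℕ) (hn : n < A.b ^ k) : A.Pi k n φ ∈ A.E := by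
  unfold E at *
  induction hφ using Submodule.iSup_induction' with
  | mem x φ h =>
    exact Submodule.mem_iSup_of_mem _ (A.Ob_Pi x φ h k n hn)
  | zero => rw [map_zero]; exact Submodule.zero_mem _
  | add φ ψ _ _ h1 h2 => rw [map_add]; exact Submodule.add_mem _ h1 h2

lemma W_Pi (φ : A.H) (hφ : φ ∈ A.Eᗮ) (k n : ℕ) (hn : n < A.b ^ k) : A.Pi k n φ ∈ A.Eᗮ := by
  rw [Submodule.mem_orthogonal] at *
  -- the restriction to `E` is surjective
  let T : A.E →ₗ[ℂ] A.E := (A.Pi k n).restrict (fun ψ hψ => A.E_Pi ψ hψ k n hn)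
  have hT : Function.Injective T := by
    intro a b hab
    apply Subtype.ext
    apply A.Pi_inj k n hn
    have := congrArg Subtype.val hab
    exact this
  have hTs : Function.Surjective T := LinearMap.injective_iff_surjective.1 hT
  intro v hv
  obtain ⟨v', hv'⟩ := hTs ⟨v, hv⟩
  have h1 : A.Pi k n v'.1 = v := congrArg Subtype.val hv'
  rw [← h1]
  have h2 := (A.PiI k n hn).inner_map_map v'.1 φ
  have h3 := hφ v'.1 v'.2
  rw [h3] at h2
  exact h2

/-- the possible obstructions are rational numbers with a bounded denominator -/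
lemma exists_D : ∃ D : ℕ, 1 ≤ D ∧ ∀ (x : ℝ) (φ : A.H), φ ∈ A.Ob x → φ ≠ 0 →
    ∃ m : ℤ, x = m / D := by
  classical
  set N := Nat.card (A.I → A.I) with hN
  obtain ⟨k, hk⟩ : ∃ k : ℕ, N < A.b ^ k := ⟨N, Nat.lt_pow_self (by have := A.hb; omega)⟩
  refine ⟨(A.b ^ k).factorial, Nat.succ_le_of_lt (Nat.factorial_pos _), ?_⟩
  intro x φ hφ hφ0
  have hni : ¬ Function.Injective (fun n : Fin (A.b ^ k) => A.π k n) := by
    intro hinj
    have := Nat.card_le_card_of_injective _ hinj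
    rw [Nat.card_fin, ← hN] at this
    omega
  rw [Function.Injective] at hni
  push Not at hni
  obtain ⟨n, n', hnn, hne⟩ := hni
  wlog hlt : (n : ℕ) < n' generalizing n n' with Hwlog
  · refine Hwlog n' n hnn.symm hne.symm ?_
    have h5 : (n : ℕ) ≠ n' := fun h => hne (Fin.ext h)
    omega
  have hPi : A.Pi k n φ = A.Pi k n' φ := by
    ext i
    rw [Pi_apply, Pi_apply]
    exact congrArg (fun f => φ (f i)) hnn
  have h1 := hφ k n n.2
  have h2 := hφ k n' n'.2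
  rw [← h1, ← hPi] at h2
  have hne0 : A.Pi k n φ ≠ 0 := by
    intro h
    apply hφ0
    apply A.Pi_inj k n n.2
    rw [h, map_zero]
  have h3 : e (((n' : ℕ) : ℝ) * x) = e (((n : ℕ) : ℝ) * x) := smul_left_injective ℂ hne0 h2
  have h4 : e ((((n' : ℕ) - (n : ℕ) : ℕ) : ℝ) * x) = 1 := by
    have h5 : ((n' : ℕ) : ℝ) * x = (((n' : ℕ) - (n : ℕ) : ℕ) : ℝ) * x + ((n : ℕ) : ℝ) * x := by
      rw [Nat.cast_sub hlt.le]; ring
    rw [h5, e_add] at h3
    apply mul_right_cancel₀ (e_ne (((n : ℕ) : ℝ) * x))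
    rw [h3, one_mul]
  obtain ⟨t, ht⟩ := e_eq_one _ h4
  obtain ⟨r, hr⟩ : ((n' : ℕ) - (n : ℕ)) ∣ (A.b ^ k).factorial :=
    Nat.dvd_factorial (by omega) (by have := n'.2; omega)
  refine ⟨r * t, ?_⟩
  have hr' : ((A.b ^ k).factorial : ℝ) = (((n' : ℕ) - (n : ℕ) : ℕ) : ℝ) * r := by exact_mod_cast hr
  have hfac : (0 : ℝ) < ((A.b ^ k).factorial : ℝ) := by exact_mod_cast Nat.factorial_pos _
  rw [eq_div_iff hfac.ne', hr']
  push_cast
  rw [← ht]
  ring

lemma all_equal {F : Type*} [NormedAddCommGroup F] [InnerProductSpace ℂ F] (N : ℕ) (v : ℕ → F)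
    (hv : ∀ n < N, ‖v n‖ = 1) (h : (N : ℝ) ≤ ‖∑ n ∈ range N, v n‖) (a b : ℕ) (ha : a < N)
    (hb : b < N) : v a = v b := by
  by_cases hab : a = b
  · rw [hab]
  have e1 : ∑ n ∈ range N, v n = v a + v b + ∑ i ∈ ((range N).erase a).erase b, v i := by
    rw [add_assoc, add_sum_erase _ _ (mem_erase.2 ⟨Ne.symm hab, mem_range.2 hb⟩),
      add_sum_erase _ _ (mem_range.2 ha)]
  have e2 : ‖∑ i ∈ ((range N).erase a).erase b, v i‖ ≤ (N : ℝ) - 2 := by
    refine (norm_sum_le _ _).trans ?_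
    have : ∑ i ∈ ((range N).erase a).erase b, ‖v i‖ =
        ∑ i ∈ ((range N).erase a).erase b, (1 : ℝ) := by
      refine sum_congr rfl fun i hi => hv i ?_
      exact mem_range.1 (mem_of_mem_erase (mem_of_mem_erase hi))
    rw [this, sum_const, nsmul_eq_mul, mul_one,
      card_erase_of_mem (mem_erase.2 ⟨Ne.symm hab, mem_range.2 hb⟩),
      card_erase_of_mem (mem_range.2 ha), card_range, Nat.cast_sub (by omega),
      Nat.cast_sub (by omega)]
    push_cast
    linarith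
  rw [e1] at h
  have e3 := norm_add_le (v a + v b) (∑ i ∈ ((range N).erase a).erase b, v i)
  have e4 : 2 ≤ ‖v a + v b‖ := by linarith
  have e5 := parallelogram_law_with_norm ℂ (v a) (v b)
  rw [hv a ha, hv b hb] at e5
  have e6 : ‖v a - v b‖ * ‖v a - v b‖ ≤ 0 := by nlinarith
  have e7 : ‖v a - v b‖ = 0 := by
    have := norm_nonneg (v a - v b)
    nlinarith
  exact sub_eq_zero.1 (norm_eq_zero.1 e7)

/-- the sum over the words of length `M` -/
noncomputable def SA (M : ℕ) (x : ℝ) (φ : A.H) : A.H :=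
  ∑ n ∈ range (A.b ^ M), e (n * x) • A.Pi M n φ

lemma continuous_SA (M : ℕ) : Continuous (fun p : ℝ × A.H => A.SA M p.1 p.2) := by
  unfold SA
  refine continuous_finsetSum _ fun n _ => ?_
  have h1 : Continuous (fun p : ℝ × A.H => e (n * p.1)) :=
    continuous_e.comp (continuous_const.mul continuous_fst)
  have h2 : Continuous (fun p : ℝ × A.H => A.Pi M n p.2) :=
    (LinearMap.continuous_of_finiteDimensional (A.Pi M n)).comp continuous_snd
  exact h1.smul h2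

/-- the candidates for an obstruction up to length `m` -/
def t (m : ℕ) : Set (ℝ × A.H) :=
  {p | p.1 ∈ Set.Icc (0 : ℝ) 1 ∧ p.2 ∈ A.Eᗮ ∧ ‖p.2‖ = 1 ∧
    ∀ k ≤ m, ∀ n < A.b ^ k, e (n * p.1) • A.Pi k n p.2 = A.Pi k 0 p.2}

lemma t_closed (m : ℕ) : IsClosed (A.t m) := by
  unfold t
  simp only [Set.ofPred_and, Set.ofPred_forall]
  refine IsClosed.inter (isClosed_Icc.preimage continuous_fst) (IsClosed.inter ?_
    (IsClosed.inter ?_ ?_))
  · exact (Submodule.isClosed_orthogonal _).preimage continuous_snd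
  · exact isClosed_eq (continuous_norm.comp continuous_snd) continuous_const
  · refine isClosed_iInter fun k => isClosed_iInter fun _ => isClosed_iInter fun n =>
      isClosed_iInter fun _ => ?_
    have h1 : Continuous (fun p : ℝ × A.H => e (n * p.1)) :=
      continuous_e.comp (continuous_const.mul continuous_fst)
    have h2 : Continuous (fun p : ℝ × A.H => A.Pi k n p.2) :=
      (LinearMap.continuous_of_finiteDimensional (A.Pi k n)).comp continuous_snd
    have h3 : Continuous (fun p : ℝ × A.H => A.Pi k 0 p.2) :=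
      (LinearMap.continuous_of_finiteDimensional (A.Pi k 0)).comp continuous_snd
    exact isClosed_eq (h1.smul h2) h3

/-- the compact set of the unit vectors orthogonal to `E` -/
def Z : Set (ℝ × A.H) := {p | p.1 ∈ Set.Icc (0 : ℝ) 1 ∧ p.2 ∈ A.Eᗮ ∧ ‖p.2‖ = 1}

lemma Z_compact : IsCompact A.Z := by
  have h1 : IsCompact (Set.Icc (0 : ℝ) 1 ×ˢ Metric.sphere (0 : A.H) 1) :=
    isCompact_Icc.prod (isCompact_sphere _ _)
  refine h1.of_isClosed_subset ?_ ?_
  · unfold Z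
    simp only [Set.ofPred_and]
    refine IsClosed.inter (isClosed_Icc.preimage continuous_fst) (IsClosed.inter ?_ ?_)
    · exact (Submodule.isClosed_orthogonal _).preimage continuous_snd
    · exact isClosed_eq (continuous_norm.comp continuous_snd) continuous_const
  · rintro p ⟨h1, h2, h3⟩
    exact ⟨h1, by simpa using h3⟩

lemma t_empty : ∃ m : ℕ, A.t m = ∅ := by
  by_contra hcon
  push Not at hcon
  have h1 : (⋂ m, A.t m).Nonempty := by
    apply IsCompact.nonempty_iInter_of_sequence_nonempty_isCompact_isClosed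
    · rintro m p ⟨h1, h2, h3, h4⟩
      exact ⟨h1, h2, h3, fun k hk n hn => h4 k (by omega) n hn⟩
    · intro m
      exact hcon m
    · apply A.Z_compact.of_isClosed_subset (A.t_closed 0)
      rintro p ⟨h1, h2, h3, h4⟩
      exact ⟨h1, h2, h3⟩
    · exact A.t_closed
  obtain ⟨p, hp⟩ := h1
  rw [Set.mem_iInter] at hp
  have h2 : p.2 ∈ A.Ob p.1 := by
    rw [mem_Ob]
    intro k n hn
    exact (hp k).2.2.2 k le_rfl n hn
  have h3 : p.2 ∈ A.E := Submodule.mem_iSup_of_mem _ h2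
  have h4 := (hp 0).2.1
  have h5 := (hp 0).2.2.1
  rw [Submodule.mem_orthogonal] at h4
  have h6 := h4 _ h3
  rw [inner_self_eq_zero] at h6
  rw [h6, norm_zero] at h5
  norm_num at h5

/-- Uniform contraction. -/
theorem contraction : ∃ (M : ℕ) (ρ : ℝ), 0 ≤ ρ ∧ ρ < (A.b : ℝ) ^ M ∧ ∀ (x : ℝ) (φ : A.H),
    φ ∈ A.Eᗮ → ‖A.SA M x φ‖ ≤ ρ * ‖φ‖ := by
  obtain ⟨m, hm⟩ := A.t_empty
  -- strict inequality
  have hstrict : ∀ p ∈ A.Z, ‖A.SA (m + A.K) p.1 p.2‖ < (A.b : ℝ) ^ (m + A.K) := by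
    rintro ⟨x, φ⟩ ⟨hx, hφ, hn1⟩
    by_contra hcon
    push Not at hcon
    simp only at hx hφ hn1 hcon
    have hall := all_equal (A.b ^ (m + A.K)) (fun n => e (n * x) • A.Pi (m + A.K) n φ) (by
      intro n hn
      rw [norm_smul, norm_e, one_mul, A.norm_Pi _ _ hn, hn1]) (by
      push_cast
      exact hcon)
    have hmem : (x, φ) ∈ A.t m := by
      refine ⟨hx, hφ, hn1, ?_⟩
      intro k hk n hn
      have hlen : m - k + A.K + k = m + A.K := by omega
      have h0 : A.cat 0 k n < A.b ^ (m + A.K) := by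
        rw [← hlen]; exact A.cat_lt _ _ _ _ (A.b_pos _) hn
      have h0' : A.cat 0 k 0 < A.b ^ (m + A.K) := by
        rw [← hlen]; exact A.cat_lt _ _ _ _ (A.b_pos _) (A.b_pos k)
      have h1 := hall _ _ h0 h0'
      rw [← hlen, A.Pi_cat _ _ _ _ hn, A.Pi_cat _ _ _ _ (A.b_pos k), cat_cast, cat_cast] at h1
      have e1 : (((0 : ℕ) : ℝ) * (A.b : ℝ) ^ (A.K + k) + ((A.u : ℝ) * (A.b : ℝ) ^ k + n)) * x =
        (A.u : ℝ) * (A.b : ℝ) ^ k * x + n * x := by push_cast; ring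
      have e2 : (((0 : ℕ) : ℝ) * (A.b : ℝ) ^ (A.K + k) +
          ((A.u : ℝ) * (A.b : ℝ) ^ k + ((0 : ℕ) : ℝ))) * x =
        (A.u : ℝ) * (A.b : ℝ) ^ k * x := by push_cast; ring
      rw [e1, e2, e_add, mul_smul] at h1
      have h2 := smul_right_injective _ (e_ne _) h1
      rw [← map_smul] at h2
      exact A.Pi_inj _ _ (A.b_pos _) h2
    rw [hm] at hmem
    exact hmem
  by_cases hZ : A.Z.Nonempty
  · obtain ⟨p0, hp0, hmax⟩ := A.Z_compact.exists_isMaxOn hZ
      ((continuous_norm.comp (A.continuous_SA (m + A.K))).continuousOn)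
    refine ⟨m + A.K, ‖A.SA (m + A.K) p0.1 p0.2‖, norm_nonneg _, hstrict p0 hp0, ?_⟩
    intro x φ hφ
    by_cases h0 : φ = 0
    · subst h0
      simp [SA]
    have hn0 : 0 < ‖φ‖ := norm_pos_iff.2 h0
    set c : ℂ := ((‖φ‖⁻¹ : ℝ) : ℂ) with hc
    have hcn : ‖c‖ = ‖φ‖⁻¹ := by
      rw [hc, Complex.norm_real, norm_inv, norm_norm]
    have hmem : (Int.fract x, c • φ) ∈ A.Z := by
      refine ⟨⟨Int.fract_nonneg x, (Int.fract_lt_one x).le⟩, Submodule.smul_mem _ _ hφ, ?_⟩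
      simp only
      rw [norm_smul, hcn, inv_mul_cancel₀ hn0.ne']
    have h1 := hmax hmem
    simp only [Function.comp] at h1
    have h2 : A.SA (m + A.K) (Int.fract x) (c • φ) = c • A.SA (m + A.K) x φ := by
      unfold SA
      rw [smul_sum]
      refine sum_congr rfl fun n _ => ?_
      rw [map_smul, smul_comm]
      congr 2
      have h3 : (n : ℝ) * x = (n : ℝ) * Int.fract x + ((n * ⌊x⌋ : ℤ) : ℝ) := by
        have := Int.floor_add_fract x
        push_cast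
        nth_rewrite 1 [← this]
        ring
      rw [h3, e_add, e_int, mul_one]
    rw [Set.mem_ofPred_eq, h2, norm_smul, hcn, inv_mul_le_iff₀ hn0] at h1
    linarith
  · refine ⟨m + A.K, 0, le_rfl, by have := A.b_pos (m + A.K); exact_mod_cast this, ?_⟩
    intro x φ hφ
    by_cases h0 : φ = 0
    · subst h0
      simp [SA]
    exfalso
    apply hZ
    have hn0 : 0 < ‖φ‖ := norm_pos_iff.2 h0
    refine ⟨(0, (((‖φ‖⁻¹ : ℝ) : ℂ)) • φ), ⟨le_rfl, zero_le_one⟩, Submodule.smul_mem _ _ hφ, ?_⟩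
    simp only
    rw [norm_smul, Complex.norm_real, norm_inv, norm_norm, inv_mul_cancel₀ hn0.ne']

end Dat

end Pool.Agent.Run7.h560.AUT
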