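import Pool.Agent.Run7.h560.AUT.Core

set_option autoImplicit false

/-!
# Syndetic automatic sets, automatic sets of positive upper Banach density
-/

namespace Pool.Agent.Run7.h560.AUT

open Finset Filter
open Pool.Agent.W147.PS (ff ff_compare ev_pow)

variable {Q : Type}

/-- the property of the neighbourhood of `n` of radius `r` -/
def Comp (n : ℕ) (r z : ℝ) : Prop :=
  ∀ m : ℤ, |(m : ℝ) - n| ≤ r → ∃ p : ℕ, p.Prime ∧ (p : ℝ) ≤ z ∧ (p : ℤ) ∣ m ∧ (p : ℤ) < m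

theorem syndetic [Finite Q] (b : ℕ) (hb : 2 ≤ b) (δ : Q → ℕ → Q) (s : ℕ → Q) (hs : Run b δ s)
    (S : Set Q) (g : ℕ) (hg : ∀ m : ℕ, ∃ a : ℕ, m ≤ a ∧ a < m + g ∧ s a ∈ S) (ε : ℝ) (hε : 0 < ε)
    (hε1 : ε ≤ 1) :
    ∃ κ : ℝ, 0 < κ ∧ ∀ᶠ X : ℝ in atTop, ∃ n : ℕ, X < n ∧ (n : ℝ) ≤ X + X ^ ε ∧ s n ∈ S ∧
      Comp n (κ * ff X) (X ^ ε) := by
  obtain ⟨K, M, hM, hcore⟩ := core b hb δ
  obtain ⟨κ, hκ, hcore⟩ := hcore g (ε / 4) (by positivity) (by linarith)
  refine ⟨κ, hκ, ?_⟩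
  have hb0 : 0 < b := by omega
  have hbR : (2 : ℝ) ≤ b := by exact_mod_cast hb
  have hbM : 1 < (b : ℝ) ^ M := by
    calc (1 : ℝ) < b := by linarith
      _ = (b : ℝ) ^ 1 := (pow_one _).symm
      _ ≤ _ := pow_le_pow_right₀ (by linarith) hM
  have hgb : g < b ^ g := Nat.lt_pow_self (by omega)
  filter_upwards [hcore, eventually_ge_atTop (1 : ℝ),
    (tendsto_rpow_atTop (show 0 < ε / 4 by positivity)).eventually_ge_atTop ((b : ℝ) ^ M),
    ev_pow (ε / 2) ε (2 * (b : ℝ) ^ (K + K + g)) (by linarith)] with X hX hX1 hX2 hX3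
  have hX0 : 0 < X := by linarith
  obtain ⟨j, hj1, hj2⟩ := exists_nat_pow_near (Real.one_le_rpow hX1 (show 0 ≤ ε / 2 by positivity))
    hbM
  rw [← pow_mul] at hj1
  have hj3 : X ^ (ε / 4) ≤ (b : ℝ) ^ (M * j) := by
    have h1 : X ^ (ε / 2) = X ^ (ε / 4) * X ^ (ε / 4) := by
      rw [← Real.rpow_add hX0]; congr 1; ring
    have h2 : X ^ (ε / 4) * (b : ℝ) ^ M < (b : ℝ) ^ (M * j) * (b : ℝ) ^ M := by
      calc X ^ (ε / 4) * (b : ℝ) ^ M ≤ X ^ (ε / 4) * X ^ (ε / 4) :=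
            mul_le_mul_of_nonneg_left hX2 (by positivity)
        _ = X ^ (ε / 2) := h1.symm
        _ < ((b : ℝ) ^ M) ^ (j + 1) := hj2
        _ = _ := by rw [pow_succ, ← pow_mul]
    exact (lt_of_mul_lt_mul_right h2 (by positivity)).le
  set T' : ℕ := K + M * j + K with hT'
  set BT : ℝ := (b : ℝ) ^ (T' + g) with hBT
  have hBT0 : 0 < BT := by positivity
  set m₀ : ℕ := ⌊X / BT⌋₊ + 1 with hm₀
  have hN1 : X < m₀ * BT := by
    have := Nat.lt_floor_add_one (X / BT)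
    rw [div_lt_iff₀ hBT0] at this
    rw [hm₀]
    push_cast
    linarith
  have hN2 : m₀ * BT ≤ X + BT := by
    have := Nat.floor_le (show 0 ≤ X / BT by positivity)
    rw [le_div_iff₀ hBT0] at this
    rw [hm₀]
    push_cast
    linarith
  obtain ⟨w₀, hw₀, hw⟩ := hX s hs m₀ j (by omega) hj3
  rw [← hT'] at hw₀ hw
  obtain ⟨a, ha1, ha2, ha3⟩ := hg ((m₀ * b ^ T' + w₀) * b ^ g)
  obtain ⟨v, rfl⟩ := Nat.exists_eq_add_of_le ha1
  have hv : v < b ^ g := by omega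
  obtain ⟨w, hw1, hw2, hw3⟩ := hw g v le_rfl hv hN1.le
  have hpos : ∀ w : ℕ, 1 ≤ m₀ * b ^ T' + w := by
    intro w
    have : 0 < m₀ * b ^ T' := Nat.mul_pos (by omega) (pow_pos hb0 _)
    omega
  refine ⟨(m₀ * b ^ T' + w) * b ^ g + v, ?_, ?_, ?_, ?_⟩
  · push_cast
    have h1 : (0 : ℝ) ≤ (w : ℝ) * (b : ℝ) ^ g := by positivity
    have h2 : (0 : ℝ) ≤ (v : ℝ) := Nat.cast_nonneg _
    have h3 : (m₀ : ℝ) * BT = m₀ * (b : ℝ) ^ T' * (b : ℝ) ^ g := by rw [hBT, pow_add]; ring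
    rw [h3] at hN1
    nlinarith
  · have h1 : (m₀ * b ^ T' + w) * b ^ g + v ≤ (m₀ + 1) * b ^ (T' + g) := by
      have h2 : (m₀ * b ^ T' + w + 1) * b ^ g ≤ ((m₀ + 1) * b ^ T') * b ^ g := by
        apply Nat.mul_le_mul_right
        nlinarith
      rw [pow_add b T' g]
      nlinarith
    have h2 : (((m₀ * b ^ T' + w) * b ^ g + v : ℕ) : ℝ) ≤ (m₀ + 1) * BT := by
      rw [hBT]
      exact_mod_cast h1
    refine h2.trans ?_
    have h3 : 2 * BT ≤ X ^ ε := by
      calc 2 * BT = 2 * (b : ℝ) ^ (K + K + g) * (b : ℝ) ^ (M * j) := by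
            rw [hBT, hT', mul_assoc, ← pow_add]
            congr 2
            ring
        _ ≤ 2 * (b : ℝ) ^ (K + K + g) * X ^ (ε / 2) :=
            mul_le_mul_of_nonneg_left hj1 (by positivity)
        _ ≤ _ := hX3
    linarith
  · rw [run_st b hb δ s hs g _ v (hpos w) hv, hw2, ← run_st b hb δ s hs g _ v (hpos w₀) hv]
    exact ha3
  · intro m hm
    obtain ⟨p, hp1, hp2, hp3, hp4⟩ := hw3 m hm
    refine ⟨p, hp1, hp2.trans ?_, hp3, hp4⟩
    exact Real.rpow_le_rpow_of_exponent_le hX1 (by linarith)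

/-- some word leads from `c` into `S` -/
def Alive (b : ℕ) (δ : Q → ℕ → Q) (S : Set Q) (c : Q) : Prop :=
  ∃ k v : ℕ, v < b ^ k ∧ st b δ k v c ∈ S

lemma alive_of (b : ℕ) (hb : 2 ≤ b) (δ : Q → ℕ → Q) (S : Set Q) (c : Q) (k v : ℕ) (hv : v < b ^ k)
    (h : Alive b δ S (st b δ k v c)) : Alive b δ S c := by
  obtain ⟨j, w, hw, hS⟩ := h
  refine ⟨k + j, v * b ^ j + w, ?_, ?_⟩
  · have : (v + 1) * b ^ j ≤ b ^ k * b ^ j := Nat.mul_le_mul_right _ hv
    rw [pow_add]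
    nlinarith
  · rw [st_add b (by omega) δ _ _ _ _ _ hw]
    exact hS

/-- If every state has a dead descendant the set has upper Banach density zero. -/
theorem density_zero [Finite Q] (b : ℕ) (hb : 2 ≤ b) (δ : Q → ℕ → Q) (s : ℕ → Q) (hs : Run b δ s)
    (S : Set Q) (c : ℝ) (hc : 0 < c)
    (hd : ∀ ℓ₀ : ℕ, ∃ ℓ : ℕ, ℓ₀ ≤ ℓ ∧ ∃ (m : ℕ) (F : Finset ℕ), (∀ a ∈ F, m ≤ a ∧ a < m + ℓ ∧ s a ∈ S) ∧
      c * ℓ ≤ F.card) :
    ∃ m₁ : ℕ, 1 ≤ m₁ ∧ ∀ t w : ℕ, w < b ^ t → Alive b δ S (s (m₁ * b ^ t + w)) := by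
  classical
  have _ := Fintype.ofFinite Q
  by_contra hcon
  push Not at hcon
  have hb0 : 0 < b := by omega
  -- descendants of a uniform length
  have h1 : ∀ q : Q, ∃ t : ℕ, (∃ m : ℕ, 1 ≤ m ∧ s m = q) →
      ∃ w : ℕ, w < b ^ t ∧ ¬ Alive b δ S (st b δ t w q) := by
    intro q
    by_cases hq : ∃ m : ℕ, 1 ≤ m ∧ s m = q
    · obtain ⟨m, hm, hmq⟩ := hq
      obtain ⟨t, w, hw, hdead⟩ := hcon m hm
      refine ⟨t, fun _ => ⟨w, hw, ?_⟩⟩
      rw [run_st b hb δ s hs t m w hm hw, hmq] at hdead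
      exact hdead
    · exact ⟨0, fun h => absurd h hq⟩
  choose t ht using h1
  set t₀ : ℕ := univ.sup t with ht₀
  have h2 : ∀ q : Q, (∃ m : ℕ, 1 ≤ m ∧ s m = q) →
      ∃ w : ℕ, w < b ^ t₀ ∧ ¬ Alive b δ S (st b δ t₀ w q) := by
    intro q hq
    obtain ⟨w, hw, hdead⟩ := ht q hq
    have hle : t q ≤ t₀ := le_sup (mem_univ q)
    obtain ⟨r, hr⟩ := Nat.exists_eq_add_of_le hle
    refine ⟨w * b ^ r + 0, ?_, ?_⟩
    · rw [hr, pow_add]
      have : (w + 1) * b ^ r ≤ b ^ (t q) * b ^ r := Nat.mul_le_mul_right _ hw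
      have h3 : 0 < b ^ r := pow_pos hb0 r
      nlinarith
    · rw [hr, st_add b hb0 δ _ _ _ _ _ (pow_pos hb0 r)]
      intro hal
      exact hdead (alive_of b hb δ S _ r 0 (pow_pos hb0 r) hal)
  -- the number of live words
  have h3 : ∀ (j : ℕ) (q : Q), (∃ m : ℕ, 1 ≤ m ∧ s m = q) →
      ∑ w ∈ range (b ^ (t₀ * j)), (if Alive b δ S (st b δ (t₀ * j) w q) then 1 else 0) ≤
        (b ^ t₀ - 1) ^ j := by
    intro j
    induction j with
    | zero =>
      intro q _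
      simp only [mul_zero, pow_zero, range_one, sum_singleton]
      split_ifs <;> omega
    | succ j ih =>
      intro q hq
      obtain ⟨w₁, hw₁, hdead⟩ := h2 q hq
      obtain ⟨m, hm, hmq⟩ := hq
      have e1 : b ^ (t₀ * (j + 1)) = b ^ (t₀ * j) * b ^ t₀ := by rw [← pow_add]; congr 1
      have e2 : t₀ * (j + 1) = t₀ + t₀ * j := by ring
      rw [e1, sum_blocks]
      have e3 : ∀ w' ∈ range (b ^ t₀), ∑ w'' ∈ range (b ^ (t₀ * j)),
          (if Alive b δ S (st b δ (t₀ * (j + 1)) (b ^ (t₀ * j) * w' + w'') q) then 1 else 0) ≤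
          if w' = w₁ then 0 else (b ^ t₀ - 1) ^ j := by
        intro w' hw'
        have e4 : ∀ w'' ∈ range (b ^ (t₀ * j)),
            (if Alive b δ S (st b δ (t₀ * (j + 1)) (b ^ (t₀ * j) * w' + w'') q) then 1 else 0) =
            (if Alive b δ S (st b δ (t₀ * j) w'' (st b δ t₀ w' q)) then 1 else 0) := by
          intro w'' hw''
          rw [e2, mul_comm (b ^ (t₀ * j)) w', st_add b hb0 δ _ _ _ _ _ (mem_range.1 hw'')]
        rw [sum_congr rfl e4]
        split_ifs with hww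
        · apply le_of_eq
          apply sum_eq_zero
          intro w'' hw''
          rw [if_neg]
          intro hal
          rw [hww] at hal
          exact hdead (alive_of b hb δ S _ _ w'' (mem_range.1 hw'') hal)
        · apply ih
          refine ⟨m * b ^ t₀ + w', ?_, ?_⟩
          · have : 0 < m * b ^ t₀ := Nat.mul_pos hm (pow_pos hb0 _)
            omega
          · rw [run_st b hb δ s hs t₀ m w' hm (mem_range.1 hw'), hmq]
      refine (sum_le_sum e3).trans ?_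
      rw [← add_sum_erase _ _ (mem_range.2 hw₁)]
      simp only [if_true, zero_add]
      have e5 : ∑ x ∈ (range (b ^ t₀)).erase w₁, (if x = w₁ then 0 else (b ^ t₀ - 1) ^ j) =
          ∑ x ∈ (range (b ^ t₀)).erase w₁, (b ^ t₀ - 1) ^ j := by
        refine sum_congr rfl fun x hx => ?_
        rw [if_neg (ne_of_mem_erase hx)]
      rw [e5, sum_const, card_erase_of_mem (mem_range.2 hw₁), card_range, smul_eq_mul, pow_succ,
        mul_comm]
  -- a good block length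
  have hbt : (0 : ℝ) < (b : ℝ) ^ t₀ := by positivity
  have hbt1 : (1 : ℝ) ≤ (b : ℝ) ^ t₀ := by
    apply one_le_pow₀
    exact_mod_cast hb0
  obtain ⟨j, hj⟩ := exists_pow_lt_of_lt_one (show 0 < c / 4 by positivity)
    (show ((b : ℝ) ^ t₀ - 1) / (b : ℝ) ^ t₀ < 1 by rw [div_lt_one hbt]; linarith)
  set P : ℕ := b ^ (t₀ * j) with hP
  have hP0 : 0 < P := pow_pos hb0 _
  have hPR : (0 : ℝ) < P := by exact_mod_cast hP0
  have hPR1 : (1 : ℝ) ≤ P := by exact_mod_cast hP0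
  have hj' : (((b ^ t₀ - 1) ^ j : ℕ) : ℝ) ≤ c / 4 * P := by
    have h4 : (((b ^ t₀ - 1) ^ j : ℕ) : ℝ) = (((b : ℝ) ^ t₀ - 1) / (b : ℝ) ^ t₀) ^ j * P := by
      rw [hP, div_pow]
      push_cast
      rw [Nat.cast_sub (Nat.one_le_pow _ _ hb0), pow_mul]
      push_cast
      field_simp
    rw [h4]
    exact mul_le_mul_of_nonneg_right hj.le hPR.le
  -- elements of the set in a block
  have hblock : ∀ i : ℕ, ∀ F : Finset ℕ, (∀ a ∈ F, s a ∈ S ∧ a / P = i) →
      (F.card : ℝ) ≤ (if i = 0 then (P : ℝ) else 0) + c / 4 * P := by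
    intro i F hF
    split_ifs with hi
    · have h5 : F.card ≤ P := by
        have : F ⊆ range P := by
          intro a ha
          rw [mem_range]
          have := (hF a ha).2
          rw [hi] at this
          exact (Nat.div_eq_zero_iff_lt hP0).1 this
        have := card_le_card this
        rwa [card_range] at this
      have h6 : (F.card : ℝ) ≤ P := by exact_mod_cast h5
      have : 0 ≤ c / 4 * P := by positivity
      linarith
    · rw [zero_add]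
      refine le_trans ?_ hj'
      have h7 := h3 j (s i) ⟨i, by omega, rfl⟩
      rw [← hP, ← card_filter] at h7
      have h8 : F.card ≤ ((range P).filter (fun w => Alive b δ S (st b δ (t₀ * j) w (s i)))).card := by
        apply card_le_card_of_injOn (fun a => a % P)
        · intro a ha
          have ha' := hF a ha
          have e6 : a = i * b ^ (t₀ * j) + a % P := by
            have := Nat.div_add_mod a P
            rw [ha'.2] at this
            rw [← hP, mul_comm i P, this]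
          rw [coe_filter]
          refine ⟨mem_range.2 (Nat.mod_lt _ hP0), ?_⟩
          rw [← run_st b hb δ s hs (t₀ * j) i (a % P) (by omega) (Nat.mod_lt _ hP0), ← e6]
          exact ⟨0, 0, by simp, ha'.1⟩
        · intro a ha a' ha' haa
          have h9 := (hF a ha).2
          have h10 := (hF a' ha').2
          have e7 := Nat.div_add_mod a P
          have e8 := Nat.div_add_mod a' P
          simp only at haa
          rw [← e7, ← e8, h9, h10, haa]
      exact_mod_cast h8.trans h7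
  -- conclusion
  obtain ⟨ℓ, hℓ, m, F, hF, hcard⟩ := hd (⌈(2 * P + c * P) / c⌉₊)
  have hℓ' : 2 * P + c * P ≤ c * ℓ := by
    have h4 : (2 * P + c * P) / c ≤ ℓ := (Nat.le_ceil _).trans (by exact_mod_cast hℓ)
    rw [div_le_iff₀ hc] at h4
    linarith
  have h4 : F.card = ∑ i ∈ Icc (m / P) ((m + ℓ) / P), (F.filter (fun a => a / P = i)).card := by
    apply card_eq_sum_card_fiberwise
    intro a ha
    have := hF a ha
    rw [mem_coe, mem_Icc]
    exact ⟨Nat.div_le_div_right this.1, Nat.div_le_div_right this.2.1.le⟩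
  have h5 : (F.card : ℝ) ≤ ∑ i ∈ Icc (m / P) ((m + ℓ) / P),
      ((if i = 0 then (P : ℝ) else 0) + c / 4 * P) := by
    rw [h4]
    push_cast
    refine sum_le_sum fun i _ => hblock i _ ?_
    intro a ha
    rw [mem_filter] at ha
    exact ⟨(hF a ha.1).2.2, ha.2⟩
  have h6 : ∑ i ∈ Icc (m / P) ((m + ℓ) / P), ((if i = 0 then (P : ℝ) else 0) + c / 4 * P) ≤
      P + ((ℓ : ℝ) / P + 2) * (c / 4 * P) := by
    rw [sum_add_distrib, sum_const, nsmul_eq_mul, Nat.card_Icc]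
    apply add_le_add
    · rw [sum_ite_eq']
      split_ifs
      · exact le_rfl
      · exact hPR.le
    · apply mul_le_mul_of_nonneg_right _ (by positivity)
      have h7 : (m + ℓ) / P + 1 - m / P ≤ ℓ / P + 2 := by
        have h8 : (m + ℓ) / P ≤ m / P + ℓ / P + 1 := by
          rw [← Nat.lt_succ_iff, Nat.div_lt_iff_lt_mul hP0]
          have e7 := Nat.div_add_mod m P
          have e8 := Nat.div_add_mod ℓ P
          have e9 := Nat.mod_lt m hP0
          have e10 := Nat.mod_lt ℓ hP0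
          have e11 : (m / P + ℓ / P + 1).succ * P = P * (m / P) + P * (ℓ / P) + 2 * P := by
            rw [Nat.succ_eq_add_one]; ring
          rw [e11]
          omega
        rw [Nat.sub_le_iff_le_add]
        linarith
      have h9 : (((m + ℓ) / P + 1 - m / P : ℕ) : ℝ) ≤ ((ℓ / P + 2 : ℕ) : ℝ) := by exact_mod_cast h7
      refine h9.trans ?_
      push_cast
      have := @Nat.cast_div_le ℝ _ _ _ ℓ P
      linarith
  have h7 : (P : ℝ) + ((ℓ : ℝ) / P + 2) * (c / 4 * P) = P + c / 4 * ℓ + c / 2 * P := by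
    field_simp
    ring
  rw [h7] at h6
  nlinarith

theorem banach [Finite Q] (b : ℕ) (hb : 2 ≤ b) (δ : Q → ℕ → Q) (s : ℕ → Q) (hs : Run b δ s)
    (S : Set Q) (c : ℝ) (hc : 0 < c)
    (hd : ∀ ℓ₀ : ℕ, ∃ ℓ : ℕ, ℓ₀ ≤ ℓ ∧ ∃ (m : ℕ) (F : Finset ℕ), (∀ a ∈ F, m ≤ a ∧ a < m + ℓ ∧ s a ∈ S) ∧
      c * ℓ ≤ F.card) (ε : ℝ) (hε : 0 < ε) (hε1 : ε ≤ 1) :
    ∃ κ : ℝ, 0 < κ ∧ ∀ N : ℕ, ∃ n : ℕ, N ≤ n ∧ s n ∈ S ∧ Comp n (κ * ff n) ((n : ℝ) ^ ε) := by
  classical
  have _ := Fintype.ofFinite Q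
  obtain ⟨m₁, hm₁, halive⟩ := density_zero b hb δ s hs S c hc hd
  obtain ⟨K, M, hM, hcore⟩ := core b hb δ
  -- a bound for the lengths of the words into `S`
  have h1 : ∀ q : Q, ∃ k v : ℕ, v < b ^ k ∧ (Alive b δ S q → st b δ k v q ∈ S) := by
    intro q
    by_cases hq : Alive b δ S q
    · obtain ⟨k, v, hv, hS⟩ := hq
      exact ⟨k, v, hv, fun _ => hS⟩
    · exact ⟨0, 0, by simp, fun h => absurd h hq⟩
  choose kk vv hvv hkv using h1
  set V : ℕ := univ.sup kk with hV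
  obtain ⟨κ, hκ, hcore⟩ := hcore V (ε / 2) (by positivity) (by linarith)
  obtain ⟨X₀, hX₀⟩ := eventually_atTop.1 hcore
  obtain ⟨X₁, hX₁⟩ := eventually_atTop.1 (ff_compare (1 / 2) (by norm_num) (by norm_num))
  refine ⟨κ * (1 / 64), by positivity, fun N => ?_⟩
  have hb0 : 0 < b := by omega
  have hbR : (2 : ℝ) ≤ b := by exact_mod_cast hb
  -- the scale
  obtain ⟨j, hj⟩ : ∃ j : ℕ, max (max X₀ X₁) (max (N : ℝ) (max (2 * (b : ℝ) ^ V)
      ((m₁ : ℝ) * (b : ℝ) ^ (K + K)))) ≤ (b : ℝ) ^ (M * j) := by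
    obtain ⟨j, hj⟩ := pow_unbounded_of_one_lt (max (max X₀ X₁) (max (N : ℝ) (max (2 * (b : ℝ) ^ V)
      ((m₁ : ℝ) * (b : ℝ) ^ (K + K))))) (show (1 : ℝ) < b by linarith)
    refine ⟨j, hj.le.trans ?_⟩
    apply pow_le_pow_right₀ (by linarith)
    nlinarith
  set T' : ℕ := K + M * j + K with hT'
  set B : ℝ := (b : ℝ) ^ (M * j) with hB
  set X : ℝ := (m₁ : ℝ) * (b : ℝ) ^ T' with hX
  have hB1 : 1 ≤ B := one_le_pow₀ (by linarith)
  have hm₁R : (1 : ℝ) ≤ m₁ := by exact_mod_cast hm₁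
  have hXB : B ≤ X := by
    have h2 : B ≤ (b : ℝ) ^ T' := pow_le_pow_right₀ (by linarith) (by omega)
    have h3 : (0 : ℝ) < (b : ℝ) ^ T' := by positivity
    rw [hX]
    nlinarith
  have hX1 : 1 ≤ X := hB1.trans hXB
  have hX0 : 0 < X := by linarith
  have hB2 : X ≤ B ^ 2 := by
    have h2 : X = ((m₁ : ℝ) * (b : ℝ) ^ (K + K)) * B := by
      rw [hX, hB, hT', mul_assoc, ← pow_add]
      congr 2
      ring
    rw [h2, sq]
    apply mul_le_mul_of_nonneg_right _ (by linarith)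
    exact (le_max_right _ _).trans ((le_max_right _ _).trans ((le_max_right _ _).trans hj))
  have hXε : X ^ (ε / 2) ≤ B := by
    calc X ^ (ε / 2) ≤ X ^ (1 / 2 : ℝ) := Real.rpow_le_rpow_of_exponent_le hX1 (by linarith)
      _ ≤ (B ^ 2) ^ (1 / 2 : ℝ) := Real.rpow_le_rpow hX0.le hB2 (by norm_num)
      _ = B := by
        rw [← Real.rpow_natCast, ← Real.rpow_mul (by linarith)]
        norm_num
  obtain ⟨w₀, hw₀, hw⟩ := hX₀ X ((le_max_left _ _).trans ((le_max_left _ _).trans (hj.trans hXB)))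
    s hs m₁ j hm₁ hXε
  rw [← hT'] at hw₀ hw
  set y : Q := s (m₁ * b ^ T' + w₀) with hy
  have hal : Alive b δ S y := halive T' w₀ hw₀
  have hk : kk y ≤ V := le_sup (mem_univ y)
  obtain ⟨w, hw1, hw2, hw3⟩ := hw (kk y) (vv y) hk (hvv y) (by
    rw [pow_add, ← mul_assoc, ← hX]
    have : (1 : ℝ) ≤ (b : ℝ) ^ kk y := one_le_pow₀ (by linarith)
    nlinarith)
  have hpos : 1 ≤ m₁ * b ^ T' + w := by
    have : 0 < m₁ * b ^ T' := Nat.mul_pos (by omega) (pow_pos hb0 _)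
    omega
  set n : ℕ := (m₁ * b ^ T' + w) * b ^ (kk y) + vv y with hn
  have hnX : X ≤ n := by
    have h2 : m₁ * b ^ T' ≤ n := by
      have h3 : 1 ≤ b ^ kk y := Nat.one_le_pow _ _ hb0
      rw [hn]
      nlinarith [Nat.zero_le w, Nat.zero_le (vv y)]
    rw [hX]
    exact_mod_cast h2
  have hnX2 : (n : ℝ) ≤ X * (2 * (b : ℝ) ^ V) := by
    have h2 : n ≤ m₁ * b ^ T' * (2 * b ^ V) := by
      have h3 : n ≤ (m₁ * b ^ T' + w + 1) * b ^ kk y := by
        have := hvv y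
        rw [hn]
        nlinarith
      have h4 : m₁ * b ^ T' + w + 1 ≤ 2 * (m₁ * b ^ T') := by
        have : b ^ T' ≤ m₁ * b ^ T' := Nat.le_mul_of_pos_left _ (by omega)
        omega
      have h5 : b ^ kk y ≤ b ^ V := Nat.pow_le_pow_right hb0 hk
      calc n ≤ (m₁ * b ^ T' + w + 1) * b ^ kk y := h3
        _ ≤ 2 * (m₁ * b ^ T') * b ^ V := Nat.mul_le_mul h4 h5
        _ = _ := by ring
    rw [hX]
    exact_mod_cast h2
  have hn1 : (1 : ℝ) ≤ n := hX1.trans hnX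
  refine ⟨n, ?_, ?_, ?_⟩
  · have h2 : (N : ℝ) ≤ n :=
      (le_max_left _ _).trans ((le_max_right _ _).trans (hj.trans (hXB.trans hnX)))
    exact_mod_cast h2
  · rw [hn, run_st b hb δ s hs _ _ _ hpos (hvv y), hw2]
    exact hkv y hal
  · intro m hm
    have h2 := ((hX₁ n ((le_max_right _ _).trans ((le_max_left _ _).trans
      (hj.trans (hXB.trans hnX))))).2 X (by
      have h3 : (n : ℝ) ≤ X ^ 2 := by
        refine hnX2.trans ?_
        rw [sq]
        apply mul_le_mul_of_nonneg_left _ hX0.le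
        exact (le_max_left _ _).trans ((le_max_right _ _).trans ((le_max_right _ _).trans
          (hj.trans hXB)))
      calc (n : ℝ) ^ (1 / 2 : ℝ) ≤ (X ^ 2) ^ (1 / 2 : ℝ) :=
            Real.rpow_le_rpow (by linarith) h3 (by norm_num)
        _ = X := by
          rw [← Real.rpow_natCast, ← Real.rpow_mul hX0.le]
          norm_num) (by nlinarith)).1
    obtain ⟨p, hp1, hp2, hp3, hp4⟩ := hw3 m (by
      refine hm.trans ?_
      calc κ * (1 / 64) * ff n = κ * (1 / 2 / 32 * ff n) := by ring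
        _ ≤ κ * ff X := mul_le_mul_of_nonneg_left h2 hκ.le)
    refine ⟨p, hp1, hp2.trans ?_, hp3, hp4⟩
    calc X ^ (ε / 2) ≤ X ^ ε := Real.rpow_le_rpow_of_exponent_le hX1 (by linarith)
      _ ≤ (n : ℝ) ^ ε := Real.rpow_le_rpow hX0.le hnX hε.le

end Pool.Agent.Run7.h560.AUT
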